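import Mathlib
import Pool.Agent.Lib.MP_14ee70_nt.TY.W.Geo

/-!
# Project TY, file N/Shift: from `∑ m^(i τ)` to the bilinear sums

`α_j(m) = (-1)^(j-1) τ / (2 π j m^j)`, `j = 1..K`.  For `m ∈ UU X` (so `m > X/2 - 1`, and in fact `m > ⌊X/2⌋`, `m ≥ X/2`
since `m` is an integer `> ⌊X/2⌋`) and `u = x z / m ≤ 2 M^2 / X ≤ 1/2` one has
`log (m + x z) = log m + log (1 + u) = log m + ∑_{j ≤ K} (-1)^(j-1) u^j / j + error`, `|error| ≤ 2 u^(K+1)`
(`Real.abs_log_sub_add_sum_range_le` with `x = -u`), so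
`|ph τ (m + x z) - ph τ m * e (∑_j α_j(m) (x z)^j)| ≤ |τ| 2 (2 M^2 / X)^(K+1)` (`|e^(i a) - e^(i b)| ≤ |a - b|`).
For every `d = x z ≤ M^2`: `|∑_{m ∈ UU X} ph τ m - ∑_{m ∈ UU X} ph τ (m + d)| ≤ 2 d` (two blocks of `d` terms).
Average over the `M^2` pairs `(x, z)`.
-/

namespace MP14ee70.TY

open Finset

/-- The coefficients of the Taylor polynomial of `τ / (2 π) * log (1 + u / m)`. -/
noncomputable def alp (τ : ℝ) (m K : ℕ) : Fin K → ℝ := fun j =>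
  (-1) ^ j.val * τ / (2 * Real.pi * ((j.val : ℝ) + 1) * (m : ℝ) ^ (j.val + 1))

theorem norm_ph (τ x : ℝ) : ‖ph τ x‖ = 1 := by
  rw [ph, Complex.norm_exp_ofReal_mul_I]

/-- `|e^(ia) - e^(ib)| ≤ |a - b|` for the phases used here. -/
theorem norm_ph_sub_le (τ x z t : ℝ) :
    ‖ph τ x - ph τ z * e t‖ ≤ |τ * Real.log x - τ * Real.log z - 2 * Real.pi * t| := by
  have h1 : ph τ x - ph τ z * e t = (ph τ z * e t) *
      (Complex.exp (Complex.I * ((τ * Real.log x - τ * Real.log z - 2 * Real.pi * t : ℝ) : ℂ))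
        - 1) := by
    rw [mul_sub, mul_one]
    congr 1
    rw [ph, ph, e, ← Complex.exp_add, ← Complex.exp_add]
    congr 1
    push_cast
    ring
  rw [h1, norm_mul, norm_mul, norm_ph, norm_e, one_mul, one_mul]
  exact Real.norm_exp_I_mul_ofReal_sub_one_le

/-- Telescoping. -/
theorem shift_tele (g : ℕ → ℂ) (a b : ℕ) (h : a ≤ b) :
    ∑ m ∈ Finset.Ioc a b, (g m - g (m + 1)) = g (a + 1) - g (b + 1) := by
  induction b, h using Nat.le_induction with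
  | base => simp
  | succ b hb ih =>
    rw [Finset.sum_Ioc_succ_top (by omega), ih]
    ring

/-- Shift of a block of integers. -/
theorem shift_block (f : ℕ → ℂ) (hf : ∀ m, ‖f m‖ ≤ 1) (a b d : ℕ) :
    ‖∑ m ∈ Finset.Ioc a b, f m - ∑ m ∈ Finset.Ioc a b, f (m + d)‖ ≤ 2 * (d : ℝ) := by
  induction d with
  | zero => simp
  | succ d ih =>
    have h1 : ‖∑ m ∈ Finset.Ioc a b, f (m + d) - ∑ m ∈ Finset.Ioc a b, f (m + (d + 1))‖ ≤ 2 := by
      rcases le_or_gt a b with h | h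
      · rw [← Finset.sum_sub_distrib]
        have h2 := shift_tele (fun m => f (m + d)) a b h
        have h3 : ∀ m, f (m + (d + 1)) = f (m + 1 + d) := fun m => by
          congr 1
          omega
        simp only [h3]
        rw [h2]
        refine (norm_sub_le _ _).trans ?_
        linarith [hf (a + 1 + d), hf (b + 1 + d)]
      · rw [Finset.Ioc_eq_empty (by omega)]
        simp
    have h4 : ∑ m ∈ Finset.Ioc a b, f m - ∑ m ∈ Finset.Ioc a b, f (m + (d + 1)) =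
        (∑ m ∈ Finset.Ioc a b, f m - ∑ m ∈ Finset.Ioc a b, f (m + d)) +
        (∑ m ∈ Finset.Ioc a b, f (m + d) - ∑ m ∈ Finset.Ioc a b, f (m + (d + 1))) := by ring
    rw [h4]
    refine (norm_add_le _ _).trans ?_
    push_cast
    linarith

/-- The Taylor expansion for one `m` and one shift `d`. -/
theorem shift_taylor (τ : ℝ) (m K d : ℕ) (q : ℝ) (hm : 0 < (m : ℝ)) (hd : (d : ℝ) / m ≤ q)
    (hq : q ≤ 1 / 2) :
    ‖ph τ ((m : ℝ) + d) - ph τ m * e (∑ j : Fin K, alp τ m K j * (d : ℝ) ^ (j.val + 1))‖ ≤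
      2 * |τ| * q ^ (K + 1) := by
  set u : ℝ := (d : ℝ) / m with hu
  have hu0 : 0 ≤ u := by positivity
  have hlog : Real.log ((m : ℝ) + d) = Real.log m + Real.log (1 + u) := by
    rw [← Real.log_mul hm.ne' (by positivity)]
    congr 1
    rw [hu]
    field_simp
  have hsum : 2 * Real.pi * ∑ j : Fin K, alp τ m K j * (d : ℝ) ^ (j.val + 1) =
      -τ * ∑ i ∈ Finset.range K, (-u) ^ (i + 1) / ((i : ℝ) + 1) := by
    rw [Finset.mul_sum, Finset.mul_sum, ← Fin.sum_univ_eq_sum_range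
      (fun i => -τ * ((-u) ^ (i + 1) / ((i : ℝ) + 1)))]
    refine Finset.sum_congr rfl fun j _ => ?_
    have hp := Real.pi_ne_zero
    have hj : ((j.val : ℝ) + 1) ≠ 0 := by positivity
    have e1 : (-u) ^ (j.val + 1) = (-1) ^ j.val * (-1) * ((d : ℝ) ^ (j.val + 1) / (m : ℝ) ^ (j.val + 1)) := by
      rw [neg_pow, hu, div_pow, pow_succ (-1 : ℝ)]
    rw [alp, e1]
    field_simp
  have h1 := Real.abs_log_sub_add_sum_range_le (x := -u) (by
    rw [abs_neg, abs_of_nonneg hu0]; linarith) K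
  rw [abs_neg, abs_of_nonneg hu0, sub_neg_eq_add] at h1
  refine (norm_ph_sub_le _ _ _ _).trans ?_
  rw [hsum, hlog]
  have h2 : τ * (Real.log m + Real.log (1 + u)) - τ * Real.log m -
      -τ * ∑ i ∈ Finset.range K, (-u) ^ (i + 1) / ((i : ℝ) + 1) =
      τ * ((∑ i ∈ Finset.range K, (-u) ^ (i + 1) / ((i : ℝ) + 1)) + Real.log (1 + u)) := by ring
  rw [h2, abs_mul]
  have h3 : u ^ (K + 1) / (1 - u) ≤ 2 * q ^ (K + 1) := by
    rw [div_le_iff₀ (by linarith)]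
    have h4 : u ^ (K + 1) ≤ q ^ (K + 1) := pow_le_pow_left₀ hu0 hd _
    have h5 : 0 ≤ q ^ (K + 1) := pow_nonneg (hu0.trans hd) _
    nlinarith
  calc |τ| * |(∑ i ∈ Finset.range K, (-u) ^ (i + 1) / ((i : ℝ) + 1)) + Real.log (1 + u)|
      ≤ |τ| * (2 * q ^ (K + 1)) := mul_le_mul_of_nonneg_left (h1.trans h3) (abs_nonneg _)
    _ = 2 * |τ| * q ^ (K + 1) := by ring

theorem shift_bound (X τ : ℝ) (M K : ℕ) (hM : 1 ≤ M) (hX : 4 * (M : ℝ) ^ 2 ≤ X) (hK : 1 ≤ K) :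
    ‖∑ m ∈ UU X, ph τ m‖ ≤ (∑ m ∈ UU X, Tsum K M (alp τ m K)) / (M : ℝ) ^ 2 + 2 * (M : ℝ) ^ 2
      + (UU X).card * (2 * |τ| * (2 * (M : ℝ) ^ 2 / X) ^ (K + 1)) := by
  have hM' : (1 : ℝ) ≤ M := by exact_mod_cast hM
  have hM2 : (0 : ℝ) < (M : ℝ) ^ 2 := by positivity
  have hX0 : 0 < X := by linarith
  set q : ℝ := 2 * (M : ℝ) ^ 2 / X with hq
  have hq2 : q ≤ 1 / 2 := by
    rw [hq, div_le_iff₀ hX0]
    linarith
  set P := Finset.Icc 1 M ×ˢ Finset.Icc 1 M with hP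
  have hPc : (P.card : ℝ) = (M : ℝ) ^ 2 := by
    rw [hP, Finset.card_product, Nat.card_Icc, Nat.add_sub_cancel]
    push_cast
    ring
  have hPd : ∀ w ∈ P, ((w.1 * w.2 : ℕ) : ℝ) ≤ (M : ℝ) ^ 2 := by
    intro w hw
    obtain ⟨h1, h2⟩ := Finset.mem_product.1 hw
    have h3 : w.1 * w.2 ≤ M * M := Nat.mul_le_mul (Finset.mem_Icc.1 h1).2 (Finset.mem_Icc.1 h2).2
    have h4 : ((w.1 * w.2 : ℕ) : ℝ) ≤ ((M * M : ℕ) : ℝ) := by exact_mod_cast h3
    refine h4.trans_eq ?_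
    push_cast
    ring
  set S := ∑ m ∈ UU X, ph τ m with hS
  -- the shifts
  have h1 : ‖∑ w ∈ P, (S - ∑ m ∈ UU X, ph τ ((m : ℝ) + ((w.1 * w.2 : ℕ) : ℝ)))‖ ≤
      (M : ℝ) ^ 2 * (2 * (M : ℝ) ^ 2) := by
    refine (norm_sum_le _ _).trans ?_
    rw [← hPc, ← nsmul_eq_mul]
    refine Finset.sum_le_card_nsmul _ _ _ fun w hw => ?_
    have h2 := shift_block (fun m => ph τ (m : ℝ)) (fun m => (norm_ph _ _).le) ⌊X / 2⌋₊ ⌊X⌋₊
      (w.1 * w.2)
    have h3 : ∀ m : ℕ, ((m + w.1 * w.2 : ℕ) : ℝ) = (m : ℝ) + ((w.1 * w.2 : ℕ) : ℝ) :=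
      fun m => Nat.cast_add _ _
    simp only [h3] at h2
    rw [hPc]
    refine h2.trans ?_
    linarith [hPd w hw]
  -- the expansion
  have hmX : ∀ m ∈ UU X, X / 2 < (m : ℝ) := by
    intro m hm
    have h2 := (Finset.mem_Ioc.1 hm).1
    exact (Nat.floor_lt (by positivity)).1 h2
  have h5 : ‖∑ w ∈ P, ∑ m ∈ UU X, ph τ ((m : ℝ) + ((w.1 * w.2 : ℕ) : ℝ))‖ ≤
      ∑ m ∈ UU X, (Tsum K M (alp τ m K) + (M : ℝ) ^ 2 * (2 * |τ| * q ^ (K + 1))) := by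
    rw [Finset.sum_comm]
    refine (norm_sum_le _ _).trans (Finset.sum_le_sum fun m hm => ?_)
    have hm0 : 0 < (m : ℝ) := lt_trans (by positivity) (hmX m hm)
    have h6 : ∑ w ∈ P, ph τ ((m : ℝ) + ((w.1 * w.2 : ℕ) : ℝ)) =
        ph τ m * (∑ w ∈ P, e (∑ j : Fin K, alp τ m K j * ((w.1 * w.2 : ℕ) : ℝ) ^ (j.val + 1))) +
        ∑ w ∈ P, (ph τ ((m : ℝ) + ((w.1 * w.2 : ℕ) : ℝ)) -
          ph τ m * e (∑ j : Fin K, alp τ m K j * ((w.1 * w.2 : ℕ) : ℝ) ^ (j.val + 1))) := by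
      rw [Finset.mul_sum, ← Finset.sum_add_distrib]
      exact Finset.sum_congr rfl fun w _ => by ring
    rw [h6]
    refine (norm_add_le _ _).trans (add_le_add ?_ ?_)
    · rw [norm_mul, norm_ph, one_mul, Tsum, hP, Finset.sum_product]
      refine le_of_eq ?_
      congr 1
      refine Finset.sum_congr rfl fun x _ => Finset.sum_congr rfl fun z _ => ?_
      congr 1
      refine Finset.sum_congr rfl fun j _ => ?_
      push_cast
      rfl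
    · refine (norm_sum_le _ _).trans ?_
      rw [← hPc, ← nsmul_eq_mul]
      refine Finset.sum_le_card_nsmul _ _ _ fun w hw => ?_
      refine shift_taylor τ m K (w.1 * w.2) q hm0 ?_ hq2
      rw [hq, div_le_div_iff₀ hm0 hX0]
      have h7 := hPd w hw
      have h8 := hmX m hm
      nlinarith
  have h9 : ((M : ℝ) ^ 2) * ‖S‖ ≤ (M : ℝ) ^ 2 * (2 * (M : ℝ) ^ 2) +
      ∑ m ∈ UU X, (Tsum K M (alp τ m K) + (M : ℝ) ^ 2 * (2 * |τ| * q ^ (K + 1))) := by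
    have h10 : (P.card : ℂ) * S =
        ∑ w ∈ P, (S - ∑ m ∈ UU X, ph τ ((m : ℝ) + ((w.1 * w.2 : ℕ) : ℝ))) +
        ∑ w ∈ P, ∑ m ∈ UU X, ph τ ((m : ℝ) + ((w.1 * w.2 : ℕ) : ℝ)) := by
      rw [← Finset.sum_add_distrib, Finset.sum_congr rfl fun w _ => sub_add_cancel _ _,
        Finset.sum_const, nsmul_eq_mul]
    have h11 : ‖(P.card : ℂ) * S‖ = (M : ℝ) ^ 2 * ‖S‖ := by
      rw [norm_mul, Complex.norm_natCast, hPc]
    rw [← h11, h10]
    exact (norm_add_le _ _).trans (add_le_add h1 h5)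
  rw [Finset.sum_add_distrib, Finset.sum_const, nsmul_eq_mul] at h9
  have h12 : ‖S‖ = (M : ℝ) ^ 2 * ‖S‖ / (M : ℝ) ^ 2 := by field_simp
  rw [h12, div_le_iff₀ hM2]
  refine h9.trans_eq ?_
  field_simp
  ring

end MP14ee70.TY
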