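import Mathlib
import Pool.Agent.Lib.MP_14ee70_nt.TY.N.Shift

/-!
# Project TY, file N/Prod: the product of the `Sj` at the coefficients `alp`

`|τ| = X^ρ`, `ρ ≥ 1/2`, `M = ⌊X^(2/5)⌋`, `K = ⌈5ρ⌉ + 2`, `s = 9 K^2`, `m ∈ (X/2, X]`.
Hypothesis `ρ log (ρ + 2) ≤ c log X` and `X ≥ C`: so `K ≤ 11 ρ`, and `2^j`, `j`, `s`, `K^C`, `1 + log (s M^j)` for `j ≤ K` are
all at most `X^(small)`: `2^K ≤ X^(1/1000)`, `s^2 ≤ X^(1/1000)`, `(1 - X^(-2/5))^(2K) ≥ 1/2`, ...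
For the integers `j` with `(5/3)(ρ + 1/10) ≤ j ≤ 4ρ` (they are `≤ K`):
`|α_j| = |τ| / (2 π j m^j) ≤ X^ρ (2/X)^j`, `|α_j| s M^j ≤ 2^j s X^(ρ - 3j/5) ≤ 2^j s X^(-1/10) ≤ 1/2`, so
(`Sj_le`) `S_j ≤ 3 s M^j + (1 + log(s M^j)) 2 π j m^j X^(-ρ) ≤ 3 s M^j + (..) X^(j-ρ)`, and
`X^(j-ρ) = X^(4j/5) X^(j/5 - ρ) ≤ X^(4j/5) X^(-ρ/5)`, `X^(4j/5) ≤ 2 M^(2j)`, `M^j = M^(2j) M^(-j) ≤ M^(2j) X^(-(2/5) j + small)` with
`j ≥ (5/3) ρ`: so `S_j ≤ M^(2j) X^(-ρ/20)`.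
The number of such `j` is at least `0.9 ρ` (length of the interval minus one is `7ρ/3 - 7/6`, which is `≥ 0.9 ρ` for `ρ ≥ 0.82`;
for `1/2 ≤ ρ ≤ 0.82` the integer `j = 2` lies in it, since `(5/3)(ρ+0.1) ≤ 1.54`, `4ρ ≥ 2`, and `0.9 ρ < 1`).
For all other `j`: `Sj_le_triv`.
-/

namespace MP14ee70.TY

open Finset

/-- A good index. -/
theorem prod_good {X ρ : ℝ} {m K s M i : ℕ} {a : ℝ} (hl : 1000 ≤ Real.log X)
    (hρ : 1 / 2 ≤ ρ) (hρc : ρ * Real.log (ρ + 2) ≤ 1 / 1000 * Real.log X) (hX0 : 0 < X)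
    (hK1 : 5 * ρ ≤ K) (hK2 : (K : ℝ) ≤ 11 * ρ) (hs : s = 9 * K ^ 2)
    (hM1 : X ^ (2 / 5 : ℝ) / 2 ≤ M) (hM2 : (M : ℝ) ≤ X ^ (2 / 5 : ℝ))
    (hm1 : X / 2 ≤ m) (hm2 : (m : ℝ) ≤ X)
    (hi1 : 5 / 3 * (ρ + 1 / 10) ≤ i) (hi2 : (i : ℝ) ≤ 4 * ρ)
    (ha : |a| = X ^ ρ / (2 * Real.pi * i * (m : ℝ) ^ i)) :
    Sj s M i a ≤ 9 * (s : ℝ) ^ 2 * (M : ℝ) ^ (2 * i) * X ^ (-(ρ / 20)) := by
  obtain ⟨l, hldef⟩ : ∃ l, l = Real.log X := ⟨_, rfl⟩
  rw [← hldef] at hl hρc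
  have hXr : ∀ b : ℝ, X ^ b = Real.exp (l * b) := fun b => by
    rw [hldef]
    exact Real.rpow_def_of_pos hX0 b
  have hρ0 : 0 < ρ := by linarith
  have hi0 : (0 : ℝ) < i := by linarith
  have hiN : 1 ≤ i := by
    have : 0 < i := by exact_mod_cast hi0
    omega
  have hi1' : (1 : ℝ) ≤ i := by exact_mod_cast hiN
  -- M and m
  have hX25 : 0 < X ^ (2 / 5 : ℝ) := Real.rpow_pos_of_pos hX0 _
  have hM0 : (0 : ℝ) < M := lt_of_lt_of_le (by positivity) hM1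
  have hMN : 1 ≤ M := by
    have : 0 < M := by exact_mod_cast hM0
    omega
  have hm0 : (0 : ℝ) < m := lt_of_lt_of_le (by positivity) hm1
  obtain ⟨μ, hμ⟩ : ∃ μ, μ = Real.log M := ⟨_, rfl⟩
  obtain ⟨ν, hν⟩ : ∃ ν, ν = Real.log m := ⟨_, rfl⟩
  have hμ1 : 2 / 5 * l - Real.log 2 ≤ μ := by
    rw [hμ]
    have h1 := Real.log_le_log (by positivity) hM1
    rwa [Real.log_div hX25.ne' (by norm_num), Real.log_rpow hX0, ← hldef] at h1
  have hμ2 : μ ≤ 2 / 5 * l := by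
    rw [hμ]
    have h1 := Real.log_le_log hM0 hM2
    rwa [Real.log_rpow hX0, ← hldef] at h1
  have hν1 : l - Real.log 2 ≤ ν := by
    rw [hν]
    have h1 := Real.log_le_log (by positivity) hm1
    rwa [Real.log_div hX0.ne' (by norm_num), ← hldef] at h1
  have hν2 : ν ≤ l := by
    rw [hν, hldef]
    exact Real.log_le_log hm0 hm2
  have hMe : (M : ℝ) ^ i = Real.exp (i * μ) := by
    rw [Real.exp_nat_mul, hμ, Real.exp_log hM0]
  have hM2e : (M : ℝ) ^ (2 * i) = Real.exp (2 * (i * μ)) := by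
    rw [mul_comm 2 i, pow_mul, hMe, ← Real.exp_nat_mul]
    norm_num
  have hme : (m : ℝ) ^ i = Real.exp (i * ν) := by
    rw [Real.exp_nat_mul, hν, Real.exp_log hm0]
  -- log 2
  have hL2 : Real.log 2 < 0.6931471808 := Real.log_two_lt_d9
  have hL2' : 0 < Real.log 2 := Real.log_pos (by norm_num)
  have hlogρ : Real.log 2 ≤ Real.log (ρ + 2) := Real.log_le_log (by norm_num) (by linarith)
  have hlogρ0 : 0 < Real.log (ρ + 2) := lt_of_lt_of_le hL2' hlogρ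
  have h4ρ : 4 * ρ * Real.log 2 ≤ 4 / 1000 * l := by
    have := mul_le_mul_of_nonneg_left hlogρ hρ0.le
    linarith
  have hlρ2 : Real.log (ρ + 2) ≤ 2 / 1000 * l := by
    have : 1 / 2 * Real.log (ρ + 2) ≤ ρ * Real.log (ρ + 2) :=
      mul_le_mul_of_nonneg_right hρ hlogρ0.le
    linarith
  -- s
  have hsr : (s : ℝ) = 9 * (K : ℝ) ^ 2 := by
    rw [hs]
    push_cast
    ring
  have hK0 : (0 : ℝ) < K := by linarith
  have hs225 : 225 * ρ ^ 2 ≤ (s : ℝ) := by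
    rw [hsr]
    have h1 := mul_self_le_mul_self (by positivity) hK1
    have h2 : 5 * ρ * (5 * ρ) = 25 * ρ ^ 2 := by ring
    have h3 : (K : ℝ) * K = (K : ℝ) ^ 2 := by ring
    rw [h2, h3] at h1
    linarith
  have hs112 : 112 * ρ ≤ (s : ℝ) := by
    have h1 : ρ * (1 / 2) ≤ ρ ^ 2 := by
      rw [sq]
      exact mul_le_mul_of_nonneg_left hρ hρ0.le
    linarith
  have hs1 : (1 : ℝ) ≤ s := by linarith
  have hs0 : (0 : ℝ) < s := by linarith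
  have hsN : 1 ≤ s := by exact_mod_cast hs1
  have hlogs : Real.log s ≤ 7.7 + 2 * Real.log (ρ + 2) := by
    have h1 : (s : ℝ) ≤ 2 ^ 11 * (ρ + 2) ^ 2 := by
      rw [hsr]
      have h2 := mul_self_le_mul_self hK0.le hK2
      have h3 : 11 * ρ * (11 * ρ) = 121 * ρ ^ 2 := by ring
      have h4 : (K : ℝ) * K = (K : ℝ) ^ 2 := by ring
      rw [h3, h4] at h2
      have h5 : (2 : ℝ) ^ 11 * (ρ + 2) ^ 2 = 2048 * ρ ^ 2 + 8192 * ρ + 8192 := by ring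
      have h6 : 0 ≤ ρ ^ 2 := sq_nonneg ρ
      rw [h5]
      linarith
    have h2 := Real.log_le_log hs0 h1
    rw [Real.log_mul (by norm_num) (by positivity), Real.log_pow, Real.log_pow] at h2
    push_cast at h2
    linarith
  have hlogs0 : 0 ≤ Real.log s := Real.log_nonneg hs1
  have hlogs' : Real.log s ≤ s - 1 := Real.log_le_sub_one_of_pos hs0
  -- products
  have P1 : (i : ℝ) * μ ≤ i * (2 / 5 * l) := mul_le_mul_of_nonneg_left hμ2 hi0.le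
  have P1' : (i : ℝ) * (2 / 5 * l - Real.log 2) ≤ i * μ := mul_le_mul_of_nonneg_left hμ1 hi0.le
  have P2 : (i : ℝ) * (l - Real.log 2) ≤ i * ν := mul_le_mul_of_nonneg_left hν1 hi0.le
  have P2' : (i : ℝ) * ν ≤ i * l := mul_le_mul_of_nonneg_left hν2 hi0.le
  have hl0 : 0 < l := by linarith
  have P3 : 5 / 3 * (ρ + 1 / 10) * l ≤ i * l := mul_le_mul_of_nonneg_right hi1 hl0.le
  have P4 : (i : ℝ) * Real.log 2 ≤ 4 * ρ * Real.log 2 := mul_le_mul_of_nonneg_right hi2 hL2'.le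
  have P5 : (i : ℝ) * l ≤ 4 * ρ * l := mul_le_mul_of_nonneg_right hi2 hl0.le
  have hρl : ρ * 1000 ≤ ρ * l := mul_le_mul_of_nonneg_left hl hρ0.le
  -- a
  have hpi := Real.pi_pos
  have hpi3 := Real.pi_gt_three
  have hpi4 := Real.pi_lt_d2
  have ha0 : 0 < |a| := by
    rw [ha]
    have := Real.rpow_pos_of_pos hX0 ρ
    positivity
  have hane : a ≠ 0 := abs_pos.1 ha0
  have h2pi : 2 ≤ 2 * Real.pi * i := by
    have h1 : 3 * 1 ≤ Real.pi * i := mul_le_mul hpi3.le hi1' (by norm_num) hpi.le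
    linarith
  have hcond : |a| * ((s : ℝ) * (M : ℝ) ^ i) ≤ 1 / 2 := by
    have h1 : Real.exp (l * ρ) * ((s : ℝ) * Real.exp (i * μ)) ≤ Real.exp (i * ν) := by
      have h2 : (s : ℝ) = Real.exp (Real.log s) := (Real.exp_log hs0).symm
      rw [h2, ← Real.exp_add, ← Real.exp_add]
      apply Real.exp_le_exp.2
      linarith
    rw [ha, hXr, hMe, hme, div_mul_eq_mul_div, div_le_iff₀ (by positivity)]
    have h3 : Real.exp (i * ν) * 2 ≤ Real.exp (i * ν) * (2 * Real.pi * i) :=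
      mul_le_mul_of_nonneg_left h2pi (Real.exp_pos _).le
    linarith
  have hSj := Sj_le s M i hsN hMN a hane hcond
  rw [Real.log_mul hs0.ne' (by positivity), Real.log_pow, ← hμ, hMe] at hSj
  -- part A
  have hA : 3 * ((s : ℝ) * Real.exp (i * μ)) ≤
      9 / 2 * (s : ℝ) ^ 2 * Real.exp (2 * (i * μ) + l * -(ρ / 20)) := by
    have hE : Real.exp (i * μ) ≤ Real.exp (2 * (i * μ) + l * -(ρ / 20)) := by
      apply Real.exp_le_exp.2
      linarith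
    have h1 : 3 * (s : ℝ) ≤ 9 / 2 * (s : ℝ) ^ 2 := by
      have h2 : (s : ℝ) * 1 ≤ (s : ℝ) ^ 2 := by
        rw [sq]
        exact mul_le_mul_of_nonneg_left hs1 hs0.le
      linarith
    calc 3 * ((s : ℝ) * Real.exp (i * μ)) = 3 * (s : ℝ) * Real.exp (i * μ) := by ring
      _ ≤ 9 / 2 * (s : ℝ) ^ 2 * Real.exp (2 * (i * μ) + l * -(ρ / 20)) :=
        mul_le_mul h1 hE (Real.exp_pos _).le (by positivity)
  -- part B
  have hB : (1 + (Real.log s + i * μ)) / |a| ≤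
      9 / 2 * (s : ℝ) ^ 2 * Real.exp (2 * (i * μ) + l * -(ρ / 20)) := by
    have hinv : (1 + (Real.log s + i * μ)) / |a| =
        (1 + (Real.log s + i * μ)) * (2 * Real.pi * i) * Real.exp (i * ν - l * ρ) := by
      rw [ha, hXr, hme, Real.exp_sub]
      have := Real.exp_pos (l * ρ)
      field_simp
    rw [hinv]
    have h1 : 1 + (Real.log s + i * μ) ≤ s * (1 + l) := by
      have h2 : 112 * ρ * l ≤ s * l := mul_le_mul_of_nonneg_right hs112 hl0.le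
      have h3 : 0 ≤ ρ * l := by positivity
      linarith
    have h2 : 2 * Real.pi * i ≤ s := by
      have h3 : Real.pi * i ≤ 3.15 * (4 * ρ) := by
        refine mul_le_mul hpi4.le hi2 hi0.le (by norm_num)
      linarith
    have h0 : 0 ≤ 1 + (Real.log s + i * μ) := by
      have : 0 ≤ μ := by linarith
      positivity
    have h3 : (1 + (Real.log s + i * μ)) * (2 * Real.pi * i) ≤ s * (1 + l) * s :=
      mul_le_mul h1 h2 (by positivity) (by positivity)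
    have h4 : 1 + l ≤ 9 / 2 * Real.exp (7 / 100 * l) := by
      have h5 := Real.quadratic_le_exp_of_nonneg (x := 7 / 100 * l) (by positivity)
      have h6 : l * 1000 ≤ l * l := mul_le_mul_of_nonneg_left hl hl0.le
      have h7 : (7 / 100 * l) ^ 2 = 49 / 10000 * (l * l) := by ring
      rw [h7] at h5
      linarith
    calc (1 + (Real.log s + i * μ)) * (2 * Real.pi * i) * Real.exp (i * ν - l * ρ)
        ≤ s * (1 + l) * s * Real.exp (i * ν - l * ρ) :=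
          mul_le_mul_of_nonneg_right h3 (Real.exp_pos _).le
      _ = s ^ 2 * ((1 + l) * Real.exp (i * ν - l * ρ)) := by ring
      _ ≤ s ^ 2 * (9 / 2 * Real.exp (7 / 100 * l) * Real.exp (i * ν - l * ρ)) := by
          refine mul_le_mul_of_nonneg_left ?_ (by positivity)
          exact mul_le_mul_of_nonneg_right h4 (Real.exp_pos _).le
      _ = 9 / 2 * s ^ 2 * Real.exp (7 / 100 * l + (i * ν - l * ρ)) := by
          rw [Real.exp_add]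
          ring
      _ ≤ 9 / 2 * (s : ℝ) ^ 2 * Real.exp (2 * (i * μ) + l * -(ρ / 20)) := by
          refine mul_le_mul_of_nonneg_left ?_ (by positivity)
          apply Real.exp_le_exp.2
          have h6 : 1 / 2 * l ≤ ρ * l := mul_le_mul_of_nonneg_right hρ hl0.le
          have h7 : ρ * Real.log 2 ≤ ρ * 0.7 :=
            mul_le_mul_of_nonneg_left (by linarith) hρ0.le
          linarith
  rw [hM2e, hXr]
  have hfin : 9 * (s : ℝ) ^ 2 * Real.exp (2 * (i * μ)) * Real.exp (l * -(ρ / 20)) =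
      9 / 2 * (s : ℝ) ^ 2 * Real.exp (2 * (i * μ) + l * -(ρ / 20)) +
      9 / 2 * (s : ℝ) ^ 2 * Real.exp (2 * (i * μ) + l * -(ρ / 20)) := by
    rw [Real.exp_add]
    ring
  rw [hfin]
  linarith

/-- The number of the good indices. -/
theorem prod_card {ρ : ℝ} {K : ℕ} (hρ : 1 / 2 ≤ ρ) (hK1 : 5 * ρ ≤ K) :
    0.9 * ρ ≤ ((Finset.univ.filter (fun j : Fin K =>
      5 / 3 * (ρ + 1 / 10) ≤ ((j.val + 1 : ℕ) : ℝ) ∧ ((j.val + 1 : ℕ) : ℝ) ≤ 4 * ρ)).card : ℝ) := by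
  classical
  set a : ℝ := 5 / 3 * (ρ + 1 / 10) with ha
  set G := Finset.univ.filter (fun j : Fin K =>
      a ≤ ((j.val + 1 : ℕ) : ℝ) ∧ ((j.val + 1 : ℕ) : ℝ) ≤ 4 * ρ) with hG
  have h1 : (Finset.Icc ⌈a⌉₊ ⌊4 * ρ⌋₊).card ≤ G.card := by
    have h2 : Finset.Icc ⌈a⌉₊ ⌊4 * ρ⌋₊ ⊆ G.image (fun j => j.val + 1) := by
      intro i hi
      rw [Finset.mem_Icc] at hi
      have h3 : a ≤ i := (Nat.le_ceil a).trans (by exact_mod_cast hi.1)
      have h4 : (i : ℝ) ≤ 4 * ρ := by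
        refine le_trans (by exact_mod_cast hi.2) (Nat.floor_le (by linarith))
      have h5 : (0 : ℝ) < i := by linarith
      have h6 : 0 < i := by exact_mod_cast h5
      have h7 : (i : ℝ) ≤ K := by linarith
      have h8 : i ≤ K := by exact_mod_cast h7
      have h9 : i - 1 + 1 = i := by omega
      refine Finset.mem_image.2 ⟨⟨i - 1, by omega⟩, ?_, h9⟩
      rw [hG, Finset.mem_filter]
      refine ⟨Finset.mem_univ _, ?_⟩
      simp only [h9]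
      exact ⟨h3, h4⟩
    exact (Finset.card_le_card h2).trans Finset.card_image_le
  have h2 : ((Finset.Icc ⌈a⌉₊ ⌊4 * ρ⌋₊).card : ℝ) ≤ (G.card : ℝ) := by exact_mod_cast h1
  refine le_trans ?_ h2
  by_cases hc : 0.82 ≤ ρ
  · have h3 : (⌊4 * ρ⌋₊ : ℝ) + 1 ≤ ((Finset.Icc ⌈a⌉₊ ⌊4 * ρ⌋₊).card : ℝ) + ⌈a⌉₊ := by
      rw [Nat.card_Icc]
      have : ⌊4 * ρ⌋₊ + 1 ≤ ⌊4 * ρ⌋₊ + 1 - ⌈a⌉₊ + ⌈a⌉₊ := by omega
      exact_mod_cast this
    have h4 : (⌈a⌉₊ : ℝ) < a + 1 := Nat.ceil_lt_add_one (by linarith)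
    have h5 := Nat.lt_floor_add_one (4 * ρ)
    linarith
  · have h3 : 2 ∈ Finset.Icc ⌈a⌉₊ ⌊4 * ρ⌋₊ := by
      rw [Finset.mem_Icc]
      constructor
      · rw [Nat.ceil_le]
        push_cast
        linarith
      · apply Nat.le_floor
        push_cast
        linarith
    have h4 : 0 < (Finset.Icc ⌈a⌉₊ ⌊4 * ρ⌋₊).card := Finset.card_pos.2 ⟨2, h3⟩
    have h5 : (1 : ℝ) ≤ ((Finset.Icc ⌈a⌉₊ ⌊4 * ρ⌋₊).card : ℝ) := by exact_mod_cast h4
    linarith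

theorem prod_sum_fin (K : ℕ) : ∑ j : Fin K, 2 * (j.val + 1) = K * (K + 1) := by
  rw [Fin.sum_univ_eq_sum_range (fun j => 2 * (j + 1)) K]
  induction K with
  | zero => rfl
  | succ K ih =>
    rw [Finset.sum_range_succ, ih]
    ring

theorem prod_Sj_le : ∃ c : ℝ, 0 < c ∧ ∃ C : ℝ, ∀ (X τ ρ : ℝ) (m : ℕ), C ≤ X → 1 / 2 ≤ ρ →
    ρ * Real.log (ρ + 2) ≤ c * Real.log X → |τ| = X ^ ρ → X / 2 ≤ m → (m : ℝ) ≤ X →
    ∏ j : Fin (⌈5 * ρ⌉₊ + 2), Sj (9 * (⌈5 * ρ⌉₊ + 2) ^ 2) ⌊X ^ (2 / 5 : ℝ)⌋₊ (j.val + 1)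
        (alp τ m (⌈5 * ρ⌉₊ + 2) j)
      ≤ (9 * ((9 * (⌈5 * ρ⌉₊ + 2) ^ 2 : ℕ) : ℝ) ^ 2) ^ (⌈5 * ρ⌉₊ + 2)
        * (⌊X ^ (2 / 5 : ℝ)⌋₊ : ℝ) ^ ((⌈5 * ρ⌉₊ + 2) * (⌈5 * ρ⌉₊ + 3)) * X ^ (-(0.045 * ρ ^ 2)) := by
  classical
  refine ⟨1 / 1000, by norm_num, Real.exp 1000, ?_⟩
  intro X τ ρ m hX hρ hρc hτ hm1 hm2
  have hX0 : 0 < X := lt_of_lt_of_le (Real.exp_pos _) hX
  have hl : 1000 ≤ Real.log X := by
    have := Real.log_le_log (Real.exp_pos _) hX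
    rwa [Real.log_exp] at this
  have hX1 : 1 ≤ X := by
    have : Real.exp 0 ≤ Real.exp 1000 := Real.exp_le_exp.2 (by norm_num)
    rw [Real.exp_zero] at this
    linarith
  have hX25 : 2 ≤ X ^ (2 / 5 : ℝ) := by
    rw [Real.rpow_def_of_pos hX0]
    have := Real.add_one_le_exp (Real.log X * (2 / 5))
    linarith
  obtain ⟨K, hK⟩ : ∃ K, K = ⌈5 * ρ⌉₊ + 2 := ⟨_, rfl⟩
  have hK3 : ⌈5 * ρ⌉₊ + 3 = K + 1 := by omega
  rw [hK3, ← hK]
  have hK1 : 5 * ρ ≤ K := by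
    rw [hK]
    push_cast
    have := Nat.le_ceil (5 * ρ)
    linarith
  have hK2 : (K : ℝ) ≤ 11 * ρ := by
    rw [hK]
    push_cast
    have : (⌈5 * ρ⌉₊ : ℝ) < 5 * ρ + 1 := Nat.ceil_lt_add_one (by linarith)
    linarith
  have hK0 : 0 < K := by omega
  obtain ⟨s, hs⟩ : ∃ s, s = 9 * K ^ 2 := ⟨_, rfl⟩
  rw [← hs]
  have hs1 : 1 ≤ s := by
    rw [hs]
    have : 1 ≤ K ^ 2 := Nat.one_le_pow _ _ hK0
    omega
  obtain ⟨M, hM⟩ : ∃ M, M = ⌊X ^ (2 / 5 : ℝ)⌋₊ := ⟨_, rfl⟩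
  rw [← hM]
  have hM2 : (M : ℝ) ≤ X ^ (2 / 5 : ℝ) := by
    rw [hM]
    exact Nat.floor_le (by linarith)
  have hM1 : X ^ (2 / 5 : ℝ) / 2 ≤ M := by
    have := Nat.lt_floor_add_one (X ^ (2 / 5 : ℝ))
    rw [← hM] at this
    linarith
  have hMN : 1 ≤ M := by
    have h1 : (0 : ℝ) < M := by linarith
    have : 0 < M := by exact_mod_cast h1
    omega
  have hM0 : (0 : ℝ) < M := by exact_mod_cast hMN
  -- the bounds of the factors
  let P : Fin K → Prop := fun j => 5 / 3 * (ρ + 1 / 10) ≤ ((j.val + 1 : ℕ) : ℝ) ∧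
    ((j.val + 1 : ℕ) : ℝ) ≤ 4 * ρ
  let w : Fin K → ℝ := fun j => if P j then X ^ (-(ρ / 20)) else 1
  have hfac : ∀ j : Fin K, Sj s M (j.val + 1) (alp τ m K j) ≤
      9 * (s : ℝ) ^ 2 * (M : ℝ) ^ (2 * (j.val + 1)) * w j := by
    intro j
    by_cases hj : P j
    · have hw : w j = X ^ (-(ρ / 20)) := if_pos hj
      rw [hw]
      refine prod_good hl hρ hρc hX0 hK1 hK2 hs hM1 hM2 hm1 hm2 hj.1 hj.2 ?_
      rw [alp, abs_div, abs_mul, abs_pow, abs_neg, abs_one, one_pow, one_mul, hτ]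
      congr 1
      rw [abs_of_nonneg (by positivity)]
      push_cast
      ring
    · have hw : w j = 1 := if_neg hj
      rw [hw, mul_one]
      exact Sj_le_triv s M (j.val + 1) hs1 hMN _
  have h1 : ∏ j : Fin K, Sj s M (j.val + 1) (alp τ m K j) ≤
      ∏ j : Fin K, (9 * (s : ℝ) ^ 2 * (M : ℝ) ^ (2 * (j.val + 1)) * w j) :=
    Finset.prod_le_prod (fun j _ => Sj_nonneg _ _ _ _) (fun j _ => hfac j)
  refine h1.trans ?_
  rw [Finset.prod_mul_distrib, Finset.prod_mul_distrib, Finset.prod_const, Finset.card_univ,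
    Fintype.card_fin, Finset.prod_pow_eq_pow_sum, prod_sum_fin]
  refine mul_le_mul_of_nonneg_left ?_ (by positivity)
  have h2 : ∏ j : Fin K, w j = (X ^ (-(ρ / 20))) ^ (Finset.univ.filter P).card := by
    rw [Finset.prod_ite, Finset.prod_const, Finset.prod_const_one, mul_one]
  rw [h2, ← Real.rpow_natCast, ← Real.rpow_mul hX0.le]
  apply Real.rpow_le_rpow_of_exponent_le hX1
  have h3 : 0.9 * ρ ≤ ((Finset.univ.filter P).card : ℝ) := prod_card hρ hK1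
  have h4 : ρ / 20 * (0.9 * ρ) ≤ ρ / 20 * ((Finset.univ.filter P).card : ℝ) :=
    mul_le_mul_of_nonneg_left h3 (by linarith)
  linarith

end MP14ee70.TY
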