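import Mathlib
import Pool.Agent.Lib.MP_14ee70_nt.TY.N.Prod
import Pool.Agent.Lib.MP_14ee70_nt.TY.W.Bil
import Pool.Agent.Lib.MP_14ee70_nt.TY.V.Ind

/-!
# Project TY, file N/Tsum: the bound for the bilinear sums

`Tsum_bound`: with `K = ⌈5ρ⌉ + 2`, `s = 9K^2`, `M = ⌊X^(2/5)⌋`, `T = Tsum K M (alp τ m K)`:
`T^(4s^2) ≤ M^(8s^2 - 4s) J^2 ∏ S_j` (`bil`), `J ≤ exp(C K^3 log(K+1)) M^(2s - (1-e^(-9)) K(K+1)/2)` (`V.vmvt`), `prod_Sj_le`.  So
`(T/M^2)^(4 s^2) ≤ exp(2C K^3 log(K+1)) (9s^2)^K M^(e^(-9) K(K+1)) X^(-0.045 ρ^2)`, and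
`M^(e^(-9) K(K+1)) ≤ X^((2/5) e^(-9) 143 ρ^2) ≤ X^(0.0225 ρ^2)` (`K ≤ 11ρ`, `K+1 ≤ 13ρ`, `e^(-9) ≤ 1.3 * 10^(-4)`), and
`exp(2C K^3 log(K+1)) (9 s^2)^K ≤ X^(0.01 ρ^2)` by `ρ log(ρ+2) ≤ c log X`.  So `(T/M^2)^(4s^2) ≤ X^(-0.0125 ρ^2)`,
`4 s^2 = 324 K^4 ≤ 324 * 11^4 ρ^4`: `T ≤ M^2 X^(-c' / ρ^2)`.
-/

namespace MP14ee70.TY

open Finset

/-- numerical facts on `K = ⌈5ρ⌉ + 2` -/
theorem tsum_K {ρ : ℝ} (hρ : 1 / 2 ≤ ρ) (K : ℕ) (hK : K = ⌈5 * ρ⌉₊ + 2) :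
    (K : ℝ) ≤ 11 * ρ ∧ (K : ℝ) + 1 ≤ 13 * ρ ∧ 2 ≤ K := by
  have h1 : (⌈5 * ρ⌉₊ : ℝ) < 5 * ρ + 1 := Nat.ceil_lt_add_one (by linarith)
  have h2 : (K : ℝ) = (⌈5 * ρ⌉₊ : ℝ) + 2 := by
    rw [hK]
    push_cast
    ring
  refine ⟨by rw [h2]; linarith, by rw [h2]; linarith, by omega⟩

theorem tsum_log {ρ : ℝ} (hρ : 1 / 2 ≤ ρ) (K : ℕ) (hK : K = ⌈5 * ρ⌉₊ + 2) :
    Real.log 2 ≤ Real.log (ρ + 2) ∧ Real.log (K + 1) ≤ 5 * Real.log (ρ + 2) ∧
      Real.log (9 * ((9 * K ^ 2 : ℕ) : ℝ) ^ 2) ≤ 30 * Real.log (ρ + 2) := by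
  obtain ⟨h1, h2, h3⟩ := tsum_K hρ K hK
  have h0 : (0 : ℝ) < K := by
    have : 0 < K := by omega
    exact_mod_cast this
  have hl : Real.log 2 ≤ Real.log (ρ + 2) :=
    Real.log_le_log (by norm_num) (by linarith)
  have hl16 : Real.log 16 = 4 * Real.log 2 := by
    have : (16 : ℝ) = 2 ^ 4 := by norm_num
    rw [this, Real.log_pow]
    norm_num
  have hl1024 : Real.log 1024 = 10 * Real.log 2 := by
    have : (1024 : ℝ) = 2 ^ 10 := by norm_num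
    rw [this, Real.log_pow]
    norm_num
  have h4 : Real.log (K + 1) ≤ 5 * Real.log (ρ + 2) := by
    have h5 : (K : ℝ) + 1 ≤ 16 * (ρ + 2) := by linarith
    calc Real.log (K + 1) ≤ Real.log (16 * (ρ + 2)) := Real.log_le_log (by linarith) h5
      _ = Real.log 16 + Real.log (ρ + 2) := Real.log_mul (by norm_num) (by linarith)
      _ ≤ 5 * Real.log (ρ + 2) := by rw [hl16]; linarith
  refine ⟨hl, h4, ?_⟩
  have h5 : Real.log K ≤ Real.log (K + 1) := Real.log_le_log h0 (by linarith)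
  have h6 : 9 * ((9 * K ^ 2 : ℕ) : ℝ) ^ 2 ≤ 1024 * (K : ℝ) ^ 4 := by
    push_cast
    have : (0 : ℝ) ≤ (K : ℝ) ^ 4 := by positivity
    calc 9 * (9 * (K : ℝ) ^ 2) ^ 2 = 729 * (K : ℝ) ^ 4 := by ring
      _ ≤ 1024 * (K : ℝ) ^ 4 := by linarith
  have h7 : (0 : ℝ) < 9 * ((9 * K ^ 2 : ℕ) : ℝ) ^ 2 := by
    push_cast
    positivity
  calc Real.log (9 * ((9 * K ^ 2 : ℕ) : ℝ) ^ 2) ≤ Real.log (1024 * (K : ℝ) ^ 4) :=
        Real.log_le_log h7 h6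
    _ = Real.log 1024 + 4 * Real.log K := by
        rw [Real.log_mul (by norm_num) (by positivity), Real.log_pow]
        norm_num
    _ ≤ 30 * Real.log (ρ + 2) := by rw [hl1024]; linarith

theorem tsum_exp9 : Real.exp (-9) ≤ 1 / 7000 := by
  have h1 : Real.exp 9 = Real.exp 1 ^ 9 := by
    rw [← Real.exp_nat_mul]
    norm_num
  have h2 : (2.7 : ℝ) ≤ Real.exp 1 := by
    have := Real.exp_one_gt_d9
    linarith
  have h3 : (7000 : ℝ) ≤ Real.exp 9 := by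
    rw [h1]
    calc (7000 : ℝ) ≤ 2.7 ^ 9 := by norm_num
      _ ≤ Real.exp 1 ^ 9 := pow_le_pow_left₀ (by norm_num) h2 9
  rw [Real.exp_neg, ← one_div]
  exact one_div_le_one_div_of_le (by norm_num) h3

theorem Tsum_bound : ∃ c : ℝ, 0 < c ∧ ∃ C : ℝ, ∀ (X τ ρ : ℝ) (m : ℕ), C ≤ X → 1 / 2 ≤ ρ →
    ρ * Real.log (ρ + 2) ≤ c * Real.log X → |τ| = X ^ ρ → X / 2 ≤ m → (m : ℝ) ≤ X →
    Tsum (⌈5 * ρ⌉₊ + 2) ⌊X ^ (2 / 5 : ℝ)⌋₊ (alp τ m (⌈5 * ρ⌉₊ + 2))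
      ≤ (⌊X ^ (2 / 5 : ℝ)⌋₊ : ℝ) ^ 2 * Real.exp (-(c * Real.log X / ρ ^ 2)) := by
  obtain ⟨c0, hc0, C0, hprod⟩ := prod_Sj_le
  obtain ⟨C1, hC1, hvm⟩ := V.vmvt
  obtain ⟨c, hc⟩ : ∃ c : ℝ, c = min c0 (min (1 / 10 ^ 9) (1 / (3000000 * (C1 + 1)))) := ⟨_, rfl⟩
  have hcpos : 0 < c := by
    rw [hc]
    refine lt_min hc0 (lt_min (by norm_num) ?_)
    positivity
  have hcc0 : c ≤ c0 := by
    rw [hc]
    exact min_le_left _ _
  have hc9 : c ≤ 1 / 10 ^ 9 := by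
    rw [hc]
    exact (min_le_right _ _).trans (min_le_left _ _)
  have hcC : c * (3000000 * (C1 + 1)) ≤ 1 := by
    have h1 : c ≤ 1 / (3000000 * (C1 + 1)) := by
      rw [hc]
      exact (min_le_right _ _).trans (min_le_right _ _)
    rwa [le_div_iff₀ (by positivity)] at h1
  refine ⟨c, hcpos, max C0 1, ?_⟩
  intro X τ ρ m hX hρ hρc hτ hm1 hm2
  have hXC : C0 ≤ X := (le_max_left _ _).trans hX
  have hX1 : 1 ≤ X := (le_max_right _ _).trans hX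
  have hX0 : 0 < X := by linarith
  have hlX : 0 ≤ Real.log X := Real.log_nonneg hX1
  have hp := hprod X τ ρ m hXC hρ (hρc.trans (mul_le_mul_of_nonneg_right hcc0 hlX)) hτ hm1 hm2
  obtain ⟨K, hK⟩ : ∃ K, K = ⌈5 * ρ⌉₊ + 2 := ⟨_, rfl⟩
  have hK3 : ⌈5 * ρ⌉₊ + 3 = K + 1 := by omega
  rw [hK3, ← hK] at hp
  rw [← hK]
  obtain ⟨hKρ, hKρ1, hK2⟩ := tsum_K hρ K hK
  obtain ⟨hl2, hlK, hl9⟩ := tsum_log hρ K hK
  obtain ⟨M, hM⟩ : ∃ M, M = ⌊X ^ (2 / 5 : ℝ)⌋₊ := ⟨_, rfl⟩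
  rw [← hM] at hp ⊢
  obtain ⟨s, hs⟩ : ∃ s, s = 9 * K ^ 2 := ⟨_, rfl⟩
  rw [← hs] at hp hl9
  have hX25 : 1 ≤ X ^ (2 / 5 : ℝ) := Real.one_le_rpow hX1 (by norm_num)
  have hM1 : 1 ≤ M := by
    rw [hM]
    exact Nat.le_floor (by exact_mod_cast hX25)
  have hMX : (M : ℝ) ≤ X ^ (2 / 5 : ℝ) := by
    rw [hM]
    exact Nat.floor_le (by positivity)
  have hMr1 : (1 : ℝ) ≤ M := by exact_mod_cast hM1
  have hMpos : (0 : ℝ) < M := by linarith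
  have hlM0 : 0 ≤ Real.log M := Real.log_nonneg hMr1
  have hlM : Real.log M ≤ 2 / 5 * Real.log X := by
    calc Real.log M ≤ Real.log (X ^ (2 / 5 : ℝ)) := Real.log_le_log hMpos hMX
      _ = 2 / 5 * Real.log X := Real.log_rpow hX0 _
  have hs1 : 1 ≤ s := by
    rw [hs]
    have : 1 ≤ K ^ 2 := Nat.one_le_pow _ _ (by omega)
    omega
  have hKr : (0 : ℝ) < K := by
    have : 0 < K := by omega
    exact_mod_cast this
  have hsr : (s : ℝ) = 9 * (K : ℝ) ^ 2 := by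
    rw [hs]
    push_cast
    ring
  have hsr1 : (1 : ℝ) ≤ s := by exact_mod_cast hs1
  obtain ⟨T, hT⟩ : ∃ T, T = Tsum K M (alp τ m K) := ⟨_, rfl⟩
  have hT0 : 0 ≤ T := by
    rw [hT]
    exact norm_nonneg _
  have hb := bil K s M hs1 hM1 (alp τ m K)
  rw [← hT] at hb ⊢
  have hJ := hvm K hK2 M hM1
  rw [← hs] at hJ
  -- everything in terms of the exponential function
  have e1 : (M : ℝ) ^ (8 * s ^ 2 - 4 * s) = Real.exp (Real.log M * (8 * (s : ℝ) ^ 2 - 4 * s)) := by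
    have h48 : 4 * s ≤ 8 * s ^ 2 := by
      have : s ≤ s ^ 2 := Nat.le_self_pow (by norm_num) s
      omega
    rw [← Real.rpow_natCast, Real.rpow_def_of_pos hMpos, Nat.cast_sub h48]
    push_cast
    rfl
  have e3 : (M : ℝ) ^ (K * (K + 1)) = Real.exp (Real.log M * ((K : ℝ) * (K + 1))) := by
    rw [← Real.rpow_natCast, Real.rpow_def_of_pos hMpos]
    push_cast
    rfl
  have e4 : (9 * (s : ℝ) ^ 2) ^ K = Real.exp (Real.log (9 * (s : ℝ) ^ 2) * K) := by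
    rw [← Real.rpow_natCast, Real.rpow_def_of_pos (by positivity)]
  obtain ⟨a, ha⟩ : ∃ a, a = C1 * (K : ℝ) ^ 3 * Real.log (K + 1) := ⟨_, rfl⟩
  obtain ⟨b, hbd⟩ : ∃ b, b = 18 * (K : ℝ) ^ 2 - (1 - Real.exp (-9)) * ((K : ℝ) * (K + 1) / 2) :=
    ⟨_, rfl⟩
  rw [← ha, ← hbd, Real.rpow_def_of_pos hMpos, ← Real.exp_add] at hJ
  rw [e3, e4, Real.rpow_def_of_pos hX0, ← Real.exp_add, ← Real.exp_add] at hp
  have hJ2 : (V.J s K M : ℝ) ^ 2 ≤ Real.exp (2 * (a + Real.log M * b)) := by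
    calc (V.J s K M : ℝ) ^ 2 ≤ Real.exp (a + Real.log M * b) ^ 2 :=
          pow_le_pow_left₀ (Nat.cast_nonneg _) hJ 2
      _ = Real.exp (2 * (a + Real.log M * b)) := by
          rw [← Real.exp_nat_mul]
          norm_num
  have hprod0 : 0 ≤ ∏ j : Fin K, Sj s M (j.val + 1) (alp τ m K j) :=
    Finset.prod_nonneg fun j _ => Finset.sum_nonneg fun v _ => norm_nonneg _
  have h1 : T ^ (4 * s ^ 2) ≤ Real.exp (Real.log M * (8 * (s : ℝ) ^ 2 - 4 * s)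
      + 2 * (a + Real.log M * b) + (Real.log (9 * (s : ℝ) ^ 2) * K
        + Real.log M * ((K : ℝ) * (K + 1)) + Real.log X * (-(0.045 * ρ ^ 2)))) := by
    rw [e1] at hb
    refine hb.trans ?_
    rw [Real.exp_add, Real.exp_add]
    refine mul_le_mul ?_ hp hprod0 (by positivity)
    exact mul_le_mul_of_nonneg_left hJ2 (Real.exp_nonneg _)
  -- the estimate of the exponent
  have hρ0 : 0 < ρ := by linarith
  have hℓ0 : 0 ≤ Real.log (ρ + 2) := Real.log_nonneg (by linarith)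
  have hKK : (K : ℝ) * (K + 1) ≤ 143 * ρ ^ 2 := by
    calc (K : ℝ) * (K + 1) ≤ (11 * ρ) * (13 * ρ) :=
          mul_le_mul hKρ hKρ1 (by positivity) (by positivity)
      _ = 143 * ρ ^ 2 := by ring
  have f1 : Real.exp (-9) * ((K : ℝ) * (K + 1)) * Real.log M ≤ 0.0225 * ρ ^ 2 * Real.log X := by
    have g1 : Real.exp (-9) * ((K : ℝ) * (K + 1)) ≤ 1 / 7000 * (143 * ρ ^ 2) :=
      mul_le_mul tsum_exp9 hKK (by positivity) (by norm_num)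
    calc Real.exp (-9) * ((K : ℝ) * (K + 1)) * Real.log M
        ≤ (1 / 7000 * (143 * ρ ^ 2)) * (2 / 5 * Real.log X) :=
          mul_le_mul g1 hlM hlM0 (by positivity)
      _ ≤ 0.0225 * ρ ^ 2 * Real.log X := by
          have g2 : 0 ≤ ρ ^ 2 * Real.log X := by positivity
          have g3 : (1 / 7000 * (143 * ρ ^ 2)) * (2 / 5 * Real.log X) =
              (143 / 17500) * (ρ ^ 2 * Real.log X) := by ring
          have g4 : 0.0225 * ρ ^ 2 * Real.log X = 0.0225 * (ρ ^ 2 * Real.log X) := by ring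
          rw [g3, g4]
          exact mul_le_mul_of_nonneg_right (by norm_num) g2
  have hK3' : (K : ℝ) ^ 3 ≤ 1331 * ρ ^ 3 := by
    calc (K : ℝ) ^ 3 ≤ (11 * ρ) ^ 3 := pow_le_pow_left₀ hKr.le hKρ 3
      _ = 1331 * ρ ^ 3 := by ring
  have hW0 : 0 ≤ ρ ^ 2 * (ρ * Real.log (ρ + 2)) := by positivity
  have f2 : 2 * a ≤ 13310 * C1 * (ρ ^ 2 * (ρ * Real.log (ρ + 2))) := by
    have g1 : (K : ℝ) ^ 3 * Real.log (K + 1) ≤ 1331 * ρ ^ 3 * (5 * Real.log (ρ + 2)) :=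
      mul_le_mul hK3' hlK (Real.log_nonneg (by linarith)) (by positivity)
    calc 2 * a = 2 * C1 * ((K : ℝ) ^ 3 * Real.log (K + 1)) := by rw [ha]; ring
      _ ≤ 2 * C1 * (1331 * ρ ^ 3 * (5 * Real.log (ρ + 2))) :=
          mul_le_mul_of_nonneg_left g1 (by positivity)
      _ = 13310 * C1 * (ρ ^ 2 * (ρ * Real.log (ρ + 2))) := by ring
  have f3 : Real.log (9 * (s : ℝ) ^ 2) * K ≤ 1320 * (ρ ^ 2 * (ρ * Real.log (ρ + 2))) := by
    have g1 : Real.log (9 * (s : ℝ) ^ 2) * K ≤ 30 * Real.log (ρ + 2) * (11 * ρ) := by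
      refine mul_le_mul hl9 hKρ hKr.le (by positivity)
    have g2 : 1 ≤ 4 * ρ ^ 2 := by nlinarith
    have g3 : 0 ≤ ρ * Real.log (ρ + 2) := by positivity
    calc Real.log (9 * (s : ℝ) ^ 2) * K ≤ 330 * (1 * (ρ * Real.log (ρ + 2))) := by linarith
      _ ≤ 330 * (4 * ρ ^ 2 * (ρ * Real.log (ρ + 2))) := by
          refine mul_le_mul_of_nonneg_left ?_ (by norm_num)
          exact mul_le_mul_of_nonneg_right g2 g3
      _ = 1320 * (ρ ^ 2 * (ρ * Real.log (ρ + 2))) := by ring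
  have f4 : (13310 * C1 + 1320) * (ρ ^ 2 * (ρ * Real.log (ρ + 2))) ≤ 0.01 * ρ ^ 2 * Real.log X := by
    have g1 : ρ ^ 2 * (ρ * Real.log (ρ + 2)) ≤ ρ ^ 2 * (c * Real.log X) :=
      mul_le_mul_of_nonneg_left hρc (by positivity)
    have g2 : (13310 * C1 + 1320) * c ≤ 0.01 := by
      have g5 : 0 ≤ c * C1 := by positivity
      have g6 : c * (3000000 * (C1 + 1)) = 3000000 * (c * C1) + 3000000 * c := by ring
      have g7 : (13310 * C1 + 1320) * c = 13310 * (c * C1) + 1320 * c := by ring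
      rw [g6] at hcC
      rw [g7]
      norm_num
      linarith
    calc (13310 * C1 + 1320) * (ρ ^ 2 * (ρ * Real.log (ρ + 2)))
        ≤ (13310 * C1 + 1320) * (ρ ^ 2 * (c * Real.log X)) :=
          mul_le_mul_of_nonneg_left g1 (by positivity)
      _ = ((13310 * C1 + 1320) * c) * (ρ ^ 2 * Real.log X) := by ring
      _ ≤ 0.01 * (ρ ^ 2 * Real.log X) := mul_le_mul_of_nonneg_right g2 (by positivity)
      _ = 0.01 * ρ ^ 2 * Real.log X := by ring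
  have h2 : Real.log M * (8 * (s : ℝ) ^ 2 - 4 * s)
      + 2 * (a + Real.log M * b) + (Real.log (9 * (s : ℝ) ^ 2) * K
        + Real.log M * ((K : ℝ) * (K + 1)) + Real.log X * (-(0.045 * ρ ^ 2)))
      ≤ Real.log M * (8 * (s : ℝ) ^ 2) - 0.0125 * ρ ^ 2 * Real.log X := by
    have g1 : Real.log M * (8 * (s : ℝ) ^ 2 - 4 * s)
      + 2 * (a + Real.log M * b) + (Real.log (9 * (s : ℝ) ^ 2) * K
        + Real.log M * ((K : ℝ) * (K + 1)) + Real.log X * (-(0.045 * ρ ^ 2)))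
      = Real.log M * (8 * (s : ℝ) ^ 2) + 2 * a + Real.log (9 * (s : ℝ) ^ 2) * K
        + Real.exp (-9) * ((K : ℝ) * (K + 1)) * Real.log M - 0.045 * ρ ^ 2 * Real.log X := by
      rw [hbd]
      have g2 : Real.log M * (8 * (s : ℝ) ^ 2 - 4 * s) =
          Real.log M * (8 * (s : ℝ) ^ 2) - Real.log M * (36 * (K : ℝ) ^ 2) := by
        rw [hsr]
        ring
      rw [g2]
      ring
    rw [g1]
    linarith
  -- the root
  have h3 : (c * Real.log X / ρ ^ 2) * (4 * (s : ℝ) ^ 2) ≤ 0.0125 * ρ ^ 2 * Real.log X := by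
    have g1 : (s : ℝ) ^ 2 ≤ 81 * 14641 * ρ ^ 4 := by
      calc (s : ℝ) ^ 2 = 81 * (K : ℝ) ^ 4 := by rw [hsr]; ring
        _ ≤ 81 * (11 * ρ) ^ 4 := by
            refine mul_le_mul_of_nonneg_left ?_ (by norm_num)
            exact pow_le_pow_left₀ hKr.le hKρ 4
        _ = 81 * 14641 * ρ ^ 4 := by ring
    calc (c * Real.log X / ρ ^ 2) * (4 * (s : ℝ) ^ 2)
        ≤ (c * Real.log X / ρ ^ 2) * (4 * (81 * 14641 * ρ ^ 4)) := by
          refine mul_le_mul_of_nonneg_left (by linarith) (by positivity)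
      _ = (c * 4743684) * (ρ ^ 2 * Real.log X) := by
          field_simp
          ring
      _ ≤ 0.0125 * (ρ ^ 2 * Real.log X) := by
          refine mul_le_mul_of_nonneg_right ?_ (by positivity)
          norm_num at hc9 ⊢
          linarith
      _ = 0.0125 * ρ ^ 2 * Real.log X := by ring
  have h4 : T ^ (4 * s ^ 2) ≤
      ((M : ℝ) ^ 2 * Real.exp (-(c * Real.log X / ρ ^ 2))) ^ (4 * s ^ 2) := by
    refine h1.trans ((Real.exp_le_exp.2 h2).trans ?_)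
    have g1 : ((M : ℝ) ^ 2 * Real.exp (-(c * Real.log X / ρ ^ 2))) ^ (4 * s ^ 2) =
        Real.exp (Real.log M * (8 * (s : ℝ) ^ 2)
          - (c * Real.log X / ρ ^ 2) * (4 * (s : ℝ) ^ 2)) := by
      have g2 : (M : ℝ) ^ 2 = Real.exp (Real.log M * 2) := by
        rw [← Real.rpow_natCast, Real.rpow_def_of_pos hMpos]
        norm_num
      rw [g2, ← Real.exp_add, ← Real.exp_nat_mul]
      congr 1
      push_cast
      ring
    rw [g1]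
    exact Real.exp_le_exp.2 (by linarith)
  have hne : 4 * s ^ 2 ≠ 0 := by positivity
  exact (pow_le_pow_iff_left₀ hT0 (by positivity) hne).1 h4

end MP14ee70.TY
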