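import Mathlib
import Pool.Agent.Lib.MP_14ee70_nt.TY.N.Tsum

/-!
# Project TY, file N/Big: the Vinogradov bound for `∑_{X/2 < m ≤ X} m^(i τ)`

`vin`: `|τ| = X^ρ` with `1/2 ≤ ρ ≤ ρ1`; `shift_bound` (`4 M^2 ≤ 4 X^(4/5) ≤ X`):
`‖∑‖ ≤ #UU (exp(-c' log X / ρ^2) + 2 X^ρ (2 X^(-1/5))^(K+1)) + 2 X^(4/5)`, `K + 1 ≥ 5ρ + 3`: `2^(K+2) X^(-3/5) ≤ X^(-1/2)`;
`#UU ≥ X/2 - 1`: `‖∑‖ / #UU ≤ exp(-c' log X/ρ^2) + 6 X^(-1/5)`, and this is `≤ exp(-(c'/2) log X/ρ1^2)`:
put `a = c' log X / ρ^2 ≤ 4 c' log X`; if `a ≥ 1/2`.. in all cases `exp(-a/2) - exp(-a) ≥ min(a, 1)/8 * exp(-a/2)`,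
`exp(-a/2) ≥ X^(-2c')` (`ρ ≥ 1/2`) and `a ≥ c'/(c^2 log X)·(log 2)^2` (`ρ ≤ c log X / log 2`), so for `c' ≤ 1/50` (one may decrease `c'`)
`6 X^(-1/5) ≤ exp(-a/2) - exp(-a)` for `X` large.
-/

namespace MP14ee70.TY

open Finset

/-- the size of `UU` -/
theorem big_card {X : ℝ} (hX : 4 ≤ X) : X / 4 ≤ ((UU X).card : ℝ) := by
  have h1 : ⌊X / 2⌋₊ ≤ ⌊X⌋₊ := Nat.floor_mono (by linarith)
  rw [UU, Nat.card_Ioc, Nat.cast_sub h1]
  have h2 := Nat.lt_floor_add_one X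
  have h3 : (⌊X / 2⌋₊ : ℝ) ≤ X / 2 := Nat.floor_le (by linarith)
  linarith

/-- the elements of `UU` -/
theorem big_mem {X : ℝ} (hX : 0 ≤ X) {m : ℕ} (hm : m ∈ UU X) : X / 2 ≤ m ∧ (m : ℝ) ≤ X := by
  rw [UU, Finset.mem_Ioc] at hm
  constructor
  · have h1 := (Nat.floor_lt (by linarith : 0 ≤ X / 2)).1 hm.1
    exact h1.le
  · exact (Nat.cast_le.2 hm.2).trans (Nat.floor_le hX)

/-- The numerical inequality. -/
theorem big_num {L b : ℝ} (hL : 1000 ≤ L) (hb : 1 ≤ b * L) (hb2 : b ≤ L / 25) :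
    Real.exp (-(2 * b)) + 9 * Real.exp (-(L / 5)) ≤ Real.exp (-b) := by
  have hL0 : 0 < L := by linarith
  have hb0 : 0 < b := by
    by_contra h
    have : b * L ≤ 0 := mul_nonpos_of_nonpos_of_nonneg (not_lt.1 h) hL0.le
    linarith
  have h1 : Real.exp (-b) * (L + 1) ≤ L := by
    have h2 : 1 + b ≤ Real.exp b := by
      have := Real.add_one_le_exp b
      linarith
    have h3 : Real.exp (-b) * Real.exp b = 1 := by
      rw [← Real.exp_add, neg_add_cancel, Real.exp_zero]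
    have h4 : Real.exp (-b) * (1 + b) ≤ 1 := by
      calc Real.exp (-b) * (1 + b) ≤ Real.exp (-b) * Real.exp b :=
            mul_le_mul_of_nonneg_left h2 (Real.exp_nonneg _)
        _ = 1 := h3
    have h5 : L + 1 ≤ (1 + b) * L := by linarith
    calc Real.exp (-b) * (L + 1) ≤ Real.exp (-b) * ((1 + b) * L) :=
          mul_le_mul_of_nonneg_left h5 (Real.exp_nonneg _)
      _ = Real.exp (-b) * (1 + b) * L := by ring
      _ ≤ 1 * L := mul_le_mul_of_nonneg_right h4 hL0.le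
      _ = L := one_mul L
  have h2 : 9 * (L + 1) ≤ Real.exp (4 * L / 25) := by
    have h3 := Real.quadratic_le_exp_of_nonneg (x := 4 * L / 25) (by linarith)
    nlinarith
  have h3 : 9 * Real.exp (-(L / 5)) * (L + 1) ≤ Real.exp (-b) := by
    calc 9 * Real.exp (-(L / 5)) * (L + 1) = Real.exp (-(L / 5)) * (9 * (L + 1)) := by ring
      _ ≤ Real.exp (-(L / 5)) * Real.exp (4 * L / 25) :=
          mul_le_mul_of_nonneg_left h2 (Real.exp_nonneg _)
      _ = Real.exp (-(L / 25)) := by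
          rw [← Real.exp_add]
          congr 1
          ring
      _ ≤ Real.exp (-b) := Real.exp_le_exp.2 (by linarith)
  have h4 : Real.exp (-(2 * b)) = Real.exp (-b) * Real.exp (-b) := by
    rw [← Real.exp_add]
    congr 1
    ring
  have h5 : (Real.exp (-(2 * b)) + 9 * Real.exp (-(L / 5))) * (L + 1) ≤
      Real.exp (-b) * (L + 1) := by
    rw [h4]
    have h6 : Real.exp (-b) * (Real.exp (-b) * (L + 1)) ≤ Real.exp (-b) * L :=
      mul_le_mul_of_nonneg_left h1 (Real.exp_nonneg _)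
    linarith
  exact le_of_mul_le_mul_right h5 (by linarith)

/-- Vinogradov's estimate for `∑ m^(i τ)` in the range `X^(1/2) ≤ |τ| ≤ X^ρ1`, without a constant in front. -/
theorem vin : ∃ c : ℝ, 0 < c ∧ ∃ C : ℝ, ∀ X τ ρ1 : ℝ, C ≤ X → 1 / 2 ≤ ρ1 →
    ρ1 * Real.log (ρ1 + 2) ≤ c * Real.log X → X ^ (1 / 2 : ℝ) ≤ |τ| → |τ| ≤ X ^ ρ1 →
    ‖∑ m ∈ UU X, ph τ m‖ ≤ (UU X).card * Real.exp (-(c * Real.log X / ρ1 ^ 2)) := by
  obtain ⟨c0, hc0, C0, hT⟩ := Tsum_bound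
  obtain ⟨c, hc⟩ : ∃ c : ℝ, c = min (c0 / 2) (1 / 100) := ⟨_, rfl⟩
  have hcpos : 0 < c := by
    rw [hc]
    exact lt_min (by linarith) (by norm_num)
  have hc2 : c ≤ c0 / 2 := by
    rw [hc]
    exact min_le_left _ _
  have hc100 : c ≤ 1 / 100 := by
    rw [hc]
    exact min_le_right _ _
  refine ⟨c, hcpos, max C0 (Real.exp 1000), ?_⟩
  intro X τ ρ1 hX hρ1 hρc hτ1 hτ2
  have hXC : C0 ≤ X := (le_max_left _ _).trans hX
  have hXe : Real.exp 1000 ≤ X := (le_max_right _ _).trans hX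
  have hX0 : 0 < X := (Real.exp_pos _).trans_le hXe
  obtain ⟨L, hL⟩ : ∃ L, L = Real.log X := ⟨_, rfl⟩
  have hXL : X = Real.exp L := by rw [hL, Real.exp_log hX0]
  have hL1000 : 1000 ≤ L := by
    rw [hL, Real.le_log_iff_exp_le hX0]
    exact hXe
  have hL0 : 0 < L := by linarith
  rw [← hL] at hρc ⊢
  have hpow : ∀ r : ℝ, X ^ r = Real.exp (L * r) := fun r => by
    rw [Real.rpow_def_of_pos hX0, hL]
  have hX1 : (1001 : ℝ) ≤ X := by
    have := Real.add_one_le_exp (1000 : ℝ)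
    linarith
  have hτ0 : 0 < |τ| := lt_of_lt_of_le (by rw [hpow]; exact Real.exp_pos _) hτ1
  -- the exponent
  obtain ⟨ρ, hρ⟩ : ∃ ρ, ρ = Real.log |τ| / L := ⟨_, rfl⟩
  have hτρ : |τ| = X ^ ρ := by
    rw [hpow, hρ, mul_div_cancel₀ _ hL0.ne', Real.exp_log hτ0]
  have hρh : 1 / 2 ≤ ρ := by
    rw [hτρ] at hτ1
    exact (Real.rpow_le_rpow_left_iff (by linarith)).1 hτ1
  have hρρ1 : ρ ≤ ρ1 := by
    rw [hτρ] at hτ2
    exact (Real.rpow_le_rpow_left_iff (by linarith)).1 hτ2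
  have hρ0 : 0 < ρ := by linarith
  have hlog2 : Real.log 2 ≤ Real.log (ρ + 2) := Real.log_le_log (by norm_num) (by linarith)
  have hl2 : 0.6 < Real.log 2 := by
    have := Real.log_two_gt_d9
    linarith
  have hl2' : Real.log 2 < 1 := by
    have := Real.log_two_lt_d9
    linarith
  have hρc' : ρ * Real.log (ρ + 2) ≤ c * L := by
    refine le_trans ?_ hρc
    refine mul_le_mul hρρ1 (Real.log_le_log (by linarith) (by linarith)) ?_ (by linarith)
    exact Real.log_nonneg (by linarith)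
  have hρl : ρ * Real.log 2 ≤ c * L :=
    (mul_le_mul_of_nonneg_left hlog2 hρ0.le).trans hρc'
  -- the parameters
  obtain ⟨K, hK⟩ : ∃ K, K = ⌈5 * ρ⌉₊ + 2 := ⟨_, rfl⟩
  obtain ⟨M, hM⟩ : ∃ M, M = ⌊X ^ (2 / 5 : ℝ)⌋₊ := ⟨_, rfl⟩
  have hM1 : 1 ≤ M := by
    rw [hM]
    exact Nat.le_floor (by
      rw [Nat.cast_one]
      exact Real.one_le_rpow (by linarith) (by norm_num))
  have hMX : (M : ℝ) ≤ X ^ (2 / 5 : ℝ) := by
    rw [hM]
    exact Nat.floor_le (by positivity)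
  have hM0 : (0 : ℝ) < (M : ℝ) ^ 2 := by
    have : (0 : ℝ) < M := by exact_mod_cast hM1
    positivity
  have hM2 : (M : ℝ) ^ 2 ≤ Real.exp (4 * L / 5) := by
    calc (M : ℝ) ^ 2 ≤ (X ^ (2 / 5 : ℝ)) ^ 2 := pow_le_pow_left₀ (Nat.cast_nonneg _) hMX 2
      _ = Real.exp (4 * L / 5) := by
          rw [hpow, ← Real.exp_nat_mul]
          congr 1
          push_cast
          ring
  have hexp5 : 100 ≤ Real.exp (L / 5) := by
    have := Real.add_one_le_exp (L / 5)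
    linarith
  have h4M : 4 * (M : ℝ) ^ 2 ≤ X := by
    calc 4 * (M : ℝ) ^ 2 ≤ Real.exp (L / 5) * Real.exp (4 * L / 5) := by
          refine mul_le_mul (by linarith) hM2 hM0.le (Real.exp_nonneg _)
      _ = X := by
          rw [← Real.exp_add, hXL]
          congr 1
          ring
  have hcard : X / 4 ≤ ((UU X).card : ℝ) := big_card (by linarith)
  have hcard0 : (0 : ℝ) ≤ ((UU X).card : ℝ) := Nat.cast_nonneg _
  have hmain := shift_bound X τ M K hM1 h4M (by omega)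
  -- first term
  have ht1 : (∑ m ∈ UU X, Tsum K M (alp τ m K)) / (M : ℝ) ^ 2 ≤
      (UU X).card * Real.exp (-(c0 * L / ρ ^ 2)) := by
    rw [div_le_iff₀ hM0]
    have h1 : ∀ m ∈ UU X, Tsum K M (alp τ m K) ≤
        (M : ℝ) ^ 2 * Real.exp (-(c0 * L / ρ ^ 2)) := by
      intro m hm
      obtain ⟨hm1, hm2⟩ := big_mem hX0.le hm
      have h2 := hT X τ ρ m hXC hρh (by
        rw [← hL]
        refine hρc'.trans (mul_le_mul_of_nonneg_right ?_ hL0.le)
        linarith) hτρ hm1 hm2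
      rw [← hK, ← hM, ← hL] at h2
      exact h2
    have h2 := Finset.sum_le_card_nsmul _ _ _ h1
    rw [nsmul_eq_mul] at h2
    refine h2.trans (le_of_eq ?_)
    ring
  -- second term
  have ht2 : 2 * (M : ℝ) ^ 2 ≤ (UU X).card * (8 * Real.exp (-(L / 5))) := by
    calc 2 * (M : ℝ) ^ 2 ≤ 2 * Real.exp (4 * L / 5) := by linarith
      _ = X / 4 * (8 * Real.exp (-(L / 5))) := by
          have h1 : X * Real.exp (-(L / 5)) = Real.exp (4 * L / 5) := by
            rw [hXL, ← Real.exp_add]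
            congr 1
            ring
          rw [← h1]
          ring
      _ ≤ (UU X).card * (8 * Real.exp (-(L / 5))) :=
          mul_le_mul_of_nonneg_right hcard (by positivity)
  -- third term
  have hKr : 5 * ρ + 3 ≤ (K : ℝ) + 1 := by
    have := Nat.le_ceil (5 * ρ)
    rw [hK]
    push_cast
    linarith
  have ht3 : 2 * |τ| * (2 * (M : ℝ) ^ 2 / X) ^ (K + 1) ≤ Real.exp (-(L / 5)) := by
    have h1 : 2 * (M : ℝ) ^ 2 / X ≤ Real.exp (Real.log 2 - L / 5) := by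
      rw [div_le_iff₀ hX0, Real.exp_sub, Real.exp_log (by norm_num)]
      have h2 : Real.exp (4 * L / 5) * Real.exp (L / 5) = X := by
        rw [← Real.exp_add, hXL]
        congr 1
        ring
      have h3 : 2 / Real.exp (L / 5) * X = 2 * Real.exp (4 * L / 5) := by
        rw [← h2]
        field_simp
      rw [h3]
      linarith
    have h2 : (2 * (M : ℝ) ^ 2 / X) ^ (K + 1) ≤ Real.exp ((Real.log 2 - L / 5) * (5 * ρ + 3)) := by
      calc (2 * (M : ℝ) ^ 2 / X) ^ (K + 1) ≤ Real.exp (Real.log 2 - L / 5) ^ (K + 1) :=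
            pow_le_pow_left₀ (by positivity) h1 _
        _ = Real.exp ((Real.log 2 - L / 5) * ((K : ℝ) + 1)) := by
            rw [← Real.exp_nat_mul]
            congr 1
            push_cast
            ring
        _ ≤ Real.exp ((Real.log 2 - L / 5) * (5 * ρ + 3)) := by
            refine Real.exp_le_exp.2 ?_
            exact mul_le_mul_of_nonpos_left hKr (by linarith)
    calc 2 * |τ| * (2 * (M : ℝ) ^ 2 / X) ^ (K + 1)
        ≤ 2 * |τ| * Real.exp ((Real.log 2 - L / 5) * (5 * ρ + 3)) :=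
          mul_le_mul_of_nonneg_left h2 (by positivity)
      _ = Real.exp (Real.log 2 + L * ρ + (Real.log 2 - L / 5) * (5 * ρ + 3)) := by
          rw [Real.exp_add, Real.exp_add, Real.exp_log (by norm_num), hτρ, hpow]
      _ ≤ Real.exp (-(L / 5)) := by
          refine Real.exp_le_exp.2 ?_
          have h3 : c * L ≤ 1 / 100 * L := mul_le_mul_of_nonneg_right hc100 hL0.le
          have h4 : Real.log 2 + L * ρ + (Real.log 2 - L / 5) * (5 * ρ + 3) =
              5 * (ρ * Real.log 2) + 4 * Real.log 2 - 3 * L / 5 := by ring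
          rw [h4]
          linarith
  -- the conclusion
  obtain ⟨b, hb⟩ : ∃ b, b = c * L / ρ ^ 2 := ⟨_, rfl⟩
  have hρ2 : 0 < ρ ^ 2 := by positivity
  have hb1 : 2 * b ≤ c0 * L / ρ ^ 2 := by
    rw [hb, ← mul_div_assoc]
    refine div_le_div_of_nonneg_right ?_ hρ2.le
    have : c * L ≤ c0 / 2 * L := mul_le_mul_of_nonneg_right hc2 hL0.le
    linarith
  have hb2 : c * L / ρ1 ^ 2 ≤ b := by
    rw [hb]
    refine div_le_div_of_nonneg_left (by positivity) hρ2 ?_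
    exact pow_le_pow_left₀ hρ0.le hρρ1 2
  have hb3 : b ≤ L / 25 := by
    rw [hb, div_le_iff₀ hρ2]
    have h1 : c * L ≤ 1 / 100 * L := mul_le_mul_of_nonneg_right hc100 hL0.le
    have h2 : (1 : ℝ) / 4 ≤ ρ ^ 2 := by nlinarith
    have h3 : L / 25 * (1 / 4) ≤ L / 25 * ρ ^ 2 := mul_le_mul_of_nonneg_left h2 (by positivity)
    linarith
  have hb4 : 1 ≤ b * L := by
    have h1 : (ρ * Real.log 2) ^ 2 ≤ (c * L) ^ 2 :=
      pow_le_pow_left₀ (by positivity) hρl 2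
    have h2 : ρ ^ 2 * 0.36 ≤ (c * L) ^ 2 := by
      refine le_trans ?_ h1
      rw [mul_pow]
      refine mul_le_mul_of_nonneg_left ?_ hρ2.le
      nlinarith
    have h3 : (c * L) ^ 2 ≤ 1 / 100 * (c * L * L) := by
      have h4 : c * L ≤ 1 / 100 * L := mul_le_mul_of_nonneg_right hc100 hL0.le
      have h5 : 0 ≤ c * L := by positivity
      nlinarith
    rw [hb, div_mul_eq_mul_div, le_div_iff₀ hρ2]
    linarith
  have hnum := big_num hL1000 hb4 hb3
  have e1 : Real.exp (-(c0 * L / ρ ^ 2)) ≤ Real.exp (-(2 * b)) :=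
    Real.exp_le_exp.2 (by linarith)
  have e2 : Real.exp (-b) ≤ Real.exp (-(c * L / ρ1 ^ 2)) := Real.exp_le_exp.2 (by linarith)
  calc ‖∑ m ∈ UU X, ph τ m‖ ≤ (∑ m ∈ UU X, Tsum K M (alp τ m K)) / (M : ℝ) ^ 2 +
        2 * (M : ℝ) ^ 2 + (UU X).card * (2 * |τ| * (2 * (M : ℝ) ^ 2 / X) ^ (K + 1)) := hmain
    _ ≤ (UU X).card * Real.exp (-(c0 * L / ρ ^ 2)) + (UU X).card * (8 * Real.exp (-(L / 5))) +
        (UU X).card * Real.exp (-(L / 5)) :=
        add_le_add (add_le_add ht1 ht2) (mul_le_mul_of_nonneg_left ht3 hcard0)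
    _ = (UU X).card * (Real.exp (-(c0 * L / ρ ^ 2)) + 9 * Real.exp (-(L / 5))) := by ring
    _ ≤ (UU X).card * Real.exp (-(c * L / ρ1 ^ 2)) :=
        mul_le_mul_of_nonneg_left (by linarith) hcard0

end MP14ee70.TY
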