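import Mathlib
import Pool.Agent.Lib.MP_14ee70_nt.TY.Defs

/-!
# Project TY, file N/Small: `∑_{X/2 < m ≤ X} m^(i τ)` for small `τ`

Proof.  `z = 1 + i τ`.  For `m ≥ 2`: `|m^z - (m-1)^z - z m^(iτ)| ≤ |z| |τ| / (m-1)` (`m^z - (m-1)^z = z ∫_{m-1}^m u^(iτ) du`
and `|u^(iτ) - m^(iτ)| ≤ |τ| log (m/u) ≤ |τ| / (m-1)`).  Summing over `⌊X/2⌋ < m ≤ ⌊X⌋` (`X ≥ 4`) and dividing by `z`:
`|∑ m^(iτ) - (⌊X⌋^z - ⌊X/2⌋^z)/z| ≤ 3 |τ|`, and `|⌊X⌋^z - X^z|/|z| ≤ 1`.
So `‖∑‖ ≤ |X^z - (X/2)^z| / |z| + 3|τ| + 2`, and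
`|X^z - (X/2)^z|^2 = X^2 |1 - 2^(-1-iτ)|^2 = X^2 (5 - 4 cos (τ log 2))/4`, `|z|^2 = 1 + τ^2`; so the square of the main term is
`(X/2)^2 (5 - 4 cos(τ log 2))/(1+τ^2)`, with `5 - 4 cos t ≤ 1 + 2 t^2` (`Real.one_sub_sq_div_two_le_cos`) and
`2 (log 2)^2 ≤ 0.961`; also `5 - 4 cos ≤ 9`.  For `X < 4` everything is trivial (`#UU ≤ 3`).
(If integrals are inconvenient: the estimate for `m^z - (m-1)^z` follows from the mean value inequality for
`u ↦ u^z - z u m^(iτ)` on `[m-1, m]`, `Convex.norm_image_sub_le_of_norm_deriv_le`.)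
-/

namespace MP14ee70.TY

open Finset

theorem sm_norm_ph (τ x : ℝ) : ‖ph τ x‖ = 1 := by
  rw [ph, Complex.norm_exp_ofReal_mul_I]

theorem sm_ph_sub (τ x z : ℝ) :
    ‖ph τ x - ph τ z‖ ≤ |τ| * |Real.log x - Real.log z| := by
  have h1 : ph τ x - ph τ z = ph τ z *
      (Complex.exp (Complex.I * ((τ * Real.log x - τ * Real.log z : ℝ) : ℂ)) - 1) := by
    unfold ph
    rw [mul_sub, mul_one, ← Complex.exp_add]
    congr 2
    push_cast
    ring
  rw [h1, norm_mul, sm_norm_ph, one_mul]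
  refine Real.norm_exp_I_mul_ofReal_sub_one_le.trans (le_of_eq ?_)
  rw [Real.norm_eq_abs, ← mul_sub, abs_mul]

/-- `u^(1 + i τ)` -/
noncomputable def smF (τ u : ℝ) : ℂ := (u : ℂ) * ph τ u

/-- `1 + i τ` -/
noncomputable def smz (τ : ℝ) : ℂ := 1 + (τ : ℂ) * Complex.I

theorem sm_deriv (τ u : ℝ) (hu : 0 < u) : HasDerivAt (smF τ) (smz τ * ph τ u) u := by
  have h1 : HasDerivAt (fun x : ℝ => ((τ * Real.log x : ℝ) : ℂ)) ((τ * u⁻¹ : ℝ) : ℂ) u :=
    ((Real.hasDerivAt_log hu.ne').const_mul τ).ofReal_comp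
  have h2 := (h1.mul_const Complex.I).cexp
  have h3 : HasDerivAt (fun x : ℝ => (x : ℂ)) 1 u := by
    have := (hasDerivAt_id u).ofReal_comp
    simpa using this
  have h4 := h3.mul h2
  refine h4.congr_deriv ?_
  have hu' : (u : ℂ) ≠ 0 := by exact_mod_cast hu.ne'
  unfold smz ph
  push_cast
  field_simp

theorem sm_norm_z (τ : ℝ) : ‖smz τ‖ = Real.sqrt (1 + τ ^ 2) := by
  unfold smz
  have h := Complex.norm_add_mul_I 1 τ
  rw [Complex.ofReal_one] at h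
  rw [h, one_pow]

theorem sm_mvt (τ : ℝ) {a b : ℝ} (ha : 0 < a) (hab : a ≤ b) :
    ‖smF τ b - smF τ a - smz τ * ((b - a : ℝ) : ℂ) * ph τ b‖ ≤
      ‖smz τ‖ * (|τ| * ((b - a) / a)) * (b - a) := by
  have h1 : ∀ u ∈ Set.Icc a b, HasDerivWithinAt
      (fun u : ℝ => smF τ u - smz τ * (u : ℂ) * ph τ b)
      (smz τ * ph τ u - smz τ * ph τ b) (Set.Icc a b) u := by
    intro u hu
    have h3 : HasDerivAt (fun x : ℝ => (x : ℂ)) 1 u := by
      have := (hasDerivAt_id u).ofReal_comp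
      simpa using this
    have h4 := (sm_deriv τ u (ha.trans_le hu.1)).sub ((h3.const_mul (smz τ)).mul_const (ph τ b))
    rw [mul_one] at h4
    exact h4.hasDerivWithinAt
  have h2 : ∀ u ∈ Set.Icc a b, ‖smz τ * ph τ u - smz τ * ph τ b‖ ≤
      ‖smz τ‖ * (|τ| * ((b - a) / a)) := by
    intro u hu
    rw [← mul_sub, norm_mul]
    refine mul_le_mul_of_nonneg_left ?_ (norm_nonneg _)
    refine (sm_ph_sub τ u b).trans (mul_le_mul_of_nonneg_left ?_ (abs_nonneg _))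
    have hu0 : 0 < u := ha.trans_le hu.1
    have hb0 : 0 < b := hu0.trans_le hu.2
    rw [abs_sub_comm, abs_of_nonneg (sub_nonneg.2 (Real.log_le_log hu0 hu.2)),
      ← Real.log_div hb0.ne' hu0.ne']
    refine (Real.log_le_sub_one_of_pos (div_pos hb0 hu0)).trans ?_
    have h5 : b / u - 1 = (b - u) / u := by
      field_simp
    rw [h5]
    exact div_le_div₀ (by linarith [hu.1, hu.2]) (by linarith [hu.1]) ha hu.1
  have h3 := Convex.norm_image_sub_le_of_norm_hasDerivWithin_le h1 h2 (convex_Icc a b)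
    (Set.left_mem_Icc.2 hab) (Set.right_mem_Icc.2 hab)
  rw [Real.norm_of_nonneg (by linarith : 0 ≤ b - a)] at h3
  refine le_trans (le_of_eq ?_) h3
  congr 1
  push_cast
  ring

theorem sm_lip (τ : ℝ) {a b : ℝ} (ha : 0 < a) (hab : a ≤ b) :
    ‖smF τ b - smF τ a‖ ≤ ‖smz τ‖ * (b - a) := by
  have h1 : ∀ u ∈ Set.Icc a b, HasDerivWithinAt (smF τ) (smz τ * ph τ u) (Set.Icc a b) u :=
    fun u hu => (sm_deriv τ u (ha.trans_le hu.1)).hasDerivWithinAt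
  have h2 : ∀ u ∈ Set.Icc a b, ‖smz τ * ph τ u‖ ≤ ‖smz τ‖ := by
    intro u _
    rw [norm_mul, sm_norm_ph, mul_one]
  have h3 := Convex.norm_image_sub_le_of_norm_hasDerivWithin_le h1 h2 (convex_Icc a b)
    (Set.left_mem_Icc.2 hab) (Set.right_mem_Icc.2 hab)
  rwa [Real.norm_of_nonneg (by linarith : 0 ≤ b - a)] at h3

theorem sm_sum (τ : ℝ) {a : ℕ} (ha : 1 ≤ a) (b : ℕ) (hab : a ≤ b) :
    ‖smF τ b - smF τ a - smz τ * ∑ m ∈ Finset.Ioc a b, ph τ m‖ ≤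
      ‖smz τ‖ * |τ| * (((b : ℝ) - a) / a) := by
  have ha0 : (0 : ℝ) < a := by exact_mod_cast ha
  induction b, hab using Nat.le_induction with
  | base => simp
  | succ b hab ih =>
    rw [Finset.sum_Ioc_succ_top hab]
    have hb0 : (0 : ℝ) < b := ha0.trans_le (by exact_mod_cast hab)
    have hbb : (b : ℝ) ≤ ((b + 1 : ℕ) : ℝ) := by
      push_cast
      linarith
    have h1 := sm_mvt τ hb0 hbb
    have e1 : ((b + 1 : ℕ) : ℝ) - (b : ℝ) = 1 := by push_cast; ring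
    rw [e1] at h1
    have h2 : smF τ ((b + 1 : ℕ) : ℝ) - smF τ a -
        smz τ * (∑ m ∈ Finset.Ioc a b, ph τ m + ph τ ((b + 1 : ℕ) : ℝ)) =
        (smF τ b - smF τ a - smz τ * ∑ m ∈ Finset.Ioc a b, ph τ m) +
        (smF τ ((b + 1 : ℕ) : ℝ) - smF τ b - smz τ * ((1 : ℝ) : ℂ) * ph τ ((b + 1 : ℕ) : ℝ)) := by
      push_cast
      ring
    rw [h2]
    refine (norm_add_le _ _).trans ((add_le_add ih h1).trans ?_)
    have h3 : ‖smz τ‖ * (|τ| * (1 / (b : ℝ))) * 1 ≤ ‖smz τ‖ * |τ| * (1 / (a : ℝ)) := by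
      rw [mul_one, mul_assoc]
      refine mul_le_mul_of_nonneg_left ?_ (norm_nonneg _)
      refine mul_le_mul_of_nonneg_left ?_ (abs_nonneg _)
      exact one_div_le_one_div_of_le ha0 (by exact_mod_cast hab)
    refine (add_le_add_right h3 _).trans (le_of_eq ?_)
    push_cast
    field_simp
    ring

/-- the main term -/
theorem sm_main (τ X : ℝ) (hX : 0 < X) :
    ‖smF τ X - smF τ (X / 2)‖ ^ 2 = (X / 2) ^ 2 * (5 - 4 * Real.cos (τ * Real.log 2)) := by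
  have h1 : ph τ (X / 2) = ph τ X *
      ((Real.cos (τ * Real.log 2) : ℂ) - (Real.sin (τ * Real.log 2) : ℂ) * Complex.I) := by
    have h2 : ((Real.cos (τ * Real.log 2) : ℂ) - (Real.sin (τ * Real.log 2) : ℂ) * Complex.I) =
        Complex.exp (((-(τ * Real.log 2) : ℝ) : ℂ) * Complex.I) := by
      rw [Complex.exp_mul_I, ← Complex.ofReal_cos, ← Complex.ofReal_sin, Real.cos_neg, Real.sin_neg]
      push_cast
      ring
    rw [h2]
    unfold ph
    rw [← Complex.exp_add, Real.log_div hX.ne' two_ne_zero]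
    congr 1
    push_cast
    ring
  have h3 : smF τ X - smF τ (X / 2) = (X : ℂ) * ph τ X *
      (((1 - Real.cos (τ * Real.log 2) / 2 : ℝ) : ℂ) +
        ((Real.sin (τ * Real.log 2) / 2 : ℝ) : ℂ) * Complex.I) := by
    unfold smF
    rw [h1]
    push_cast
    ring
  rw [h3, norm_mul, norm_mul, sm_norm_ph, mul_one, mul_pow, Complex.norm_add_mul_I,
    Real.sq_sqrt (by positivity), Complex.norm_real, Real.norm_eq_abs, sq_abs]
  have h4 := Real.sin_sq_add_cos_sq (τ * Real.log 2)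
  linear_combination (X ^ 2 / 4) * h4

theorem sm_all (τ X : ℝ) (hX : 4 ≤ X) :
    ‖∑ m ∈ UU X, ph τ m‖ ≤ ‖smF τ X - smF τ (X / 2)‖ / ‖smz τ‖ + 2 + 3 * |τ| := by
  have hz : 0 < ‖smz τ‖ := by
    rw [sm_norm_z]
    exact Real.sqrt_pos.2 (by positivity)
  have hb1 := Nat.floor_le (by linarith : 0 ≤ X)
  have hb2 := Nat.lt_floor_add_one X
  have ha1 := Nat.floor_le (by linarith : 0 ≤ X / 2)
  have ha2 := Nat.lt_floor_add_one (X / 2)
  unfold UU
  generalize hga : ⌊X / 2⌋₊ = a at *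
  generalize hgb : ⌊X⌋₊ = b at *
  have ha : 1 ≤ a := by
    have : (0 : ℝ) < a := by linarith
    exact_mod_cast this
  have hab : a ≤ b := by
    have : (a : ℝ) < (b : ℝ) + 1 := by linarith
    have : a < b + 1 := by exact_mod_cast this
    omega
  have ha0 : (0 : ℝ) < a := by exact_mod_cast ha
  have hab' : (a : ℝ) ≤ b := by exact_mod_cast hab
  have h1 := sm_sum τ ha b hab
  have h2 := sm_lip τ (ha0.trans_le hab') hb1
  have h3 := sm_lip τ ha0 ha1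
  have h4 : ‖smz τ * ∑ m ∈ Finset.Ioc a b, ph τ m‖ ≤
      ‖smF τ X - smF τ (X / 2)‖ + ‖smz τ‖ * (X - b) + ‖smz τ‖ * (X / 2 - a) +
        ‖smz τ‖ * |τ| * (((b : ℝ) - a) / a) := by
    have e1 : smz τ * ∑ m ∈ Finset.Ioc a b, ph τ m =
        (smF τ X - smF τ (X / 2)) - (smF τ X - smF τ b) + (smF τ (X / 2) - smF τ a) -
        (smF τ b - smF τ a - smz τ * ∑ m ∈ Finset.Ioc a b, ph τ m) := by ring
    rw [e1]
    refine (norm_sub_le _ _).trans ?_
    refine add_le_add ?_ h1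
    refine (norm_add_le _ _).trans ?_
    refine add_le_add ?_ h3
    refine (norm_sub_le _ _).trans ?_
    exact add_le_add le_rfl h2
  have h5 : ((b : ℝ) - a) / a ≤ 3 := by
    rw [div_le_iff₀ ha0]
    linarith
  rw [norm_mul] at h4
  have h6 : ‖smz τ‖ * |τ| * (((b : ℝ) - a) / a) ≤ ‖smz τ‖ * |τ| * 3 :=
    mul_le_mul_of_nonneg_left h5 (by positivity)
  have h7 : ‖smz τ‖ * (X - b) ≤ ‖smz τ‖ * 1 := mul_le_mul_of_nonneg_left (by linarith) hz.le
  have h8 : ‖smz τ‖ * (X / 2 - a) ≤ ‖smz τ‖ * 1 := mul_le_mul_of_nonneg_left (by linarith) hz.le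
  have h9 : ‖smz τ‖ * (‖smF τ X - smF τ (X / 2)‖ / ‖smz τ‖ + 2 + 3 * |τ|) =
      ‖smF τ X - smF τ (X / 2)‖ + ‖smz τ‖ * 1 + ‖smz τ‖ * 1 + ‖smz τ‖ * |τ| * 3 := by
    field_simp
    ring
  refine le_of_mul_le_mul_left ?_ hz
  rw [h9]
  linarith

theorem sm_triv (τ X : ℝ) (hX1 : 1 ≤ X) (hX : X < 4) : ‖∑ m ∈ UU X, ph τ m‖ ≤ 3 := by
  refine (norm_sum_le _ _).trans ?_
  rw [Finset.sum_congr rfl fun (m : ℕ) _ => sm_norm_ph τ (m : ℝ), Finset.sum_const, nsmul_eq_mul,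
    mul_one]
  unfold UU
  rw [Nat.card_Ioc]
  have h1 : ⌊X⌋₊ < 4 := (Nat.floor_lt (by linarith)).2 (by exact_mod_cast hX)
  have h2 : ⌊X⌋₊ - ⌊X / 2⌋₊ ≤ 3 := by omega
  exact_mod_cast h2

theorem small_tau1 : ∃ C : ℝ, 0 < C ∧ ∀ X τ : ℝ, 1 ≤ X →
    ‖∑ m ∈ UU X, ph τ m‖ ≤ X / 2 * Real.sqrt (1 - 0.039 * (τ ^ 2 / (1 + τ ^ 2))) + C * (1 + |τ|) := by
  refine ⟨3, by norm_num, fun X τ hX => ?_⟩
  have hs := Real.sqrt_nonneg (1 - 0.039 * (τ ^ 2 / (1 + τ ^ 2)))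
  have ht := abs_nonneg τ
  rcases lt_or_ge X 4 with h4 | h4
  · have h1 := sm_triv τ X hX h4
    have h2 : 0 ≤ X / 2 * Real.sqrt (1 - 0.039 * (τ ^ 2 / (1 + τ ^ 2))) :=
      mul_nonneg (by linarith) hs
    linarith
  · have h1 := sm_all τ X h4
    have hX0 : 0 < X := by linarith
    have h2 : ‖smF τ X - smF τ (X / 2)‖ / ‖smz τ‖ ≤
        X / 2 * Real.sqrt (1 - 0.039 * (τ ^ 2 / (1 + τ ^ 2))) := by
      have hz : 0 < Real.sqrt (1 + τ ^ 2) := Real.sqrt_pos.2 (by positivity)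
      rw [sm_norm_z, div_le_iff₀ hz, mul_assoc, ← Real.sqrt_mul' _ (by positivity)]
      have h3 : ‖smF τ X - smF τ (X / 2)‖ ^ 2 ≤
          (X / 2) ^ 2 * ((1 - 0.039 * (τ ^ 2 / (1 + τ ^ 2))) * (1 + τ ^ 2)) := by
        rw [sm_main τ X hX0]
        refine mul_le_mul_of_nonneg_left ?_ (by positivity)
        have h4 := Real.one_sub_sq_div_two_le_cos (x := τ * Real.log 2)
        have h5 : (1 - 0.039 * (τ ^ 2 / (1 + τ ^ 2))) * (1 + τ ^ 2) = 1 + 0.961 * τ ^ 2 := by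
          have : (1 + τ ^ 2) ≠ 0 := by positivity
          field_simp
          ring
        rw [h5]
        have h6 := Real.log_two_lt_d9
        have h7 := Real.log_two_gt_d9
        have h8 : Real.log 2 ^ 2 ≤ 0.4805 := by nlinarith
        have h9 : (τ * Real.log 2) ^ 2 ≤ 0.4805 * τ ^ 2 := by
          rw [mul_pow, mul_comm]
          exact mul_le_mul_of_nonneg_right h8 (sq_nonneg _)
        linarith
      have h6 : ‖smF τ X - smF τ (X / 2)‖ = Real.sqrt (‖smF τ X - smF τ (X / 2)‖ ^ 2) := by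
        rw [Real.sqrt_sq (norm_nonneg _)]
      rw [h6]
      refine (Real.sqrt_le_sqrt h3).trans (le_of_eq ?_)
      rw [Real.sqrt_mul (by positivity), Real.sqrt_sq (by linarith)]
    linarith

theorem small_tau2 : ∃ C : ℝ, 0 < C ∧ ∀ X τ : ℝ, 1 ≤ X →
    ‖∑ m ∈ UU X, ph τ m‖ ≤ C * X / (1 + |τ|) + C * (1 + |τ|) := by
  refine ⟨3, by norm_num, fun X τ hX => ?_⟩
  have ht := abs_nonneg τ
  rcases lt_or_ge X 4 with h4 | h4
  · have h1 := sm_triv τ X hX h4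
    have h2 : 0 ≤ 3 * X / (1 + |τ|) := by positivity
    linarith
  · have h1 := sm_all τ X h4
    have hX0 : 0 < X := by linarith
    have h2 : ‖smF τ X - smF τ (X / 2)‖ ≤ 3 / 2 * X := by
      refine (norm_sub_le _ _).trans ?_
      unfold smF
      rw [norm_mul, norm_mul, sm_norm_ph, sm_norm_ph, Complex.norm_real, Complex.norm_real,
        Real.norm_of_nonneg (by linarith), Real.norm_of_nonneg (by linarith)]
      linarith
    have h3 : (1 + |τ|) / 2 ≤ ‖smz τ‖ := by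
      rw [sm_norm_z]
      refine Real.le_sqrt_of_sq_le ?_
      have := sq_abs τ
      nlinarith [sq_nonneg (1 - |τ|)]
    have h5 : ‖smF τ X - smF τ (X / 2)‖ / ‖smz τ‖ ≤ 3 * X / (1 + |τ|) := by
      have h6 : 3 * X / (1 + |τ|) = (3 / 2 * X) / ((1 + |τ|) / 2) := by
        field_simp
      rw [h6]
      exact div_le_div₀ (by positivity) h2 (by positivity) h3
    linarith

end MP14ee70.TY
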